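import Mathlib

set_option autoImplicit false

namespace Pool.Agent.Lib.MP_a5bfc0_al

open Matrix Kronecker

/-- The ground field. -/
abbrev F : Type := ZMod 2

theorem F_cases (c : F) : c = 0 ∨ c = 1 := by
  revert c
  decide

/-! ### Words -/

section Words

variable {σ : Type} {A : Type} [Ring A]

/-- Value of a word. -/
def ew (X : σ → A) (w : List σ) : A := (w.map X).prod

/-- Value of a sum of words. -/
def ep (X : σ → A) (p : List (List σ)) : A := (p.map (ew X)).sum

theorem ew_nil (X : σ → A) : ew X [] = 1 := rfl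

theorem ew_cons (X : σ → A) (v : σ) (w : List σ) : ew X (v :: w) = X v * ew X w := by
  simp [ew]

theorem ew_append (X : σ → A) (w w' : List σ) : ew X (w ++ w') = ew X w * ew X w' := by
  simp [ew]

theorem ep_nil (X : σ → A) : ep X [] = 0 := rfl

theorem ep_cons (X : σ → A) (w : List σ) (p : List (List σ)) :
    ep X (w :: p) = ew X w + ep X p := by
  simp [ep]

theorem ep_append (X : σ → A) (p p' : List (List σ)) : ep X (p ++ p') = ep X p + ep X p' := by
  simp [ep]

theorem ep_mul_left (X : σ → A) (w : List σ) (p : List (List σ)) :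
    ep X (p.map (w ++ ·)) = ew X w * ep X p := by
  induction p with
  | nil => simp [ep_nil]
  | cons w' p ih => rw [List.map_cons, ep_cons, ep_cons, ih, ew_append, mul_add]

theorem ep_mul (X : σ → A) (p p' : List (List σ)) :
    ep X (p.flatMap fun w => p'.map (w ++ ·)) = ep X p * ep X p' := by
  induction p with
  | nil => simp [ep_nil]
  | cons w p ih => rw [List.flatMap_cons, ep_append, ih, ep_mul_left, ep_cons, add_mul]

theorem map_ep {B : Type} [Ring B] (f : A →+* B) (X : σ → A) (p : List (List σ)) :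
    f (ep X p) = ep (fun v => f (X v)) p := by
  have h : ∀ w, f (ew X w) = ew (fun v => f (X v)) w := by
    intro w
    induction w with
    | nil => simp [ew_nil]
    | cons v w ih => rw [ew_cons, ew_cons, map_mul, ih]
  induction p with
  | nil => simp [ep_nil]
  | cons w p ih => rw [ep_cons, ep_cons, map_add, ih, h]

theorem ep_surj (f : FreeAlgebra F σ) : ∃ p, ep (FreeAlgebra.ι F) p = f := by
  induction f using FreeAlgebra.induction with
  | grade0 c =>
    rcases F_cases c with rfl | rfl
    · exact ⟨[], by simp [ep_nil]⟩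
    · exact ⟨[[]], by simp [ep_cons, ep_nil, ew_nil]⟩
  | grade1 v => exact ⟨[[v]], by simp [ep_cons, ep_nil, ew_cons, ew_nil]⟩
  | mul a b ha hb =>
    obtain ⟨p, rfl⟩ := ha
    obtain ⟨p', rfl⟩ := hb
    exact ⟨_, ep_mul _ p p'⟩
  | add a b ha hb =>
    obtain ⟨p, rfl⟩ := ha
    obtain ⟨p', rfl⟩ := hb
    exact ⟨_, ep_append _ p p'⟩

theorem lift_ep [Algebra F A] (X : σ → A) (p : List (List σ)) :
    FreeAlgebra.lift F X (ep (FreeAlgebra.ι F) p) = ep X p := by
  have := map_ep (FreeAlgebra.lift F X).toRingHom (FreeAlgebra.ι F) p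
  simpa using this

variable [Algebra F A]

/-- The derivative of a word in a direction. -/
def dw (X : σ → A) : List σ → ((σ → A) →ₗ[F] A)
  | [] => 0
  | v :: w => (LinearMap.mulRight F (ew X w)) ∘ₗ LinearMap.proj v +
      (LinearMap.mulLeft F (X v)) ∘ₗ dw X w

theorem dw_nil (X δ : σ → A) : dw X [] δ = 0 := rfl

theorem dw_cons (X δ : σ → A) (v : σ) (w : List σ) :
    dw X (v :: w) δ = δ v * ew X w + X v * dw X w δ := rfl

/-- The derivative of a sum of words in a direction. -/
def dp (X : σ → A) (p : List (List σ)) : (σ → A) →ₗ[F] A := (p.map (dw X)).sum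

theorem dp_nil (X δ : σ → A) : dp X [] δ = 0 := rfl

theorem dp_cons (X δ : σ → A) (w : List σ) (p : List (List σ)) :
    dp X (w :: p) δ = dw X w δ + dp X p δ := by
  simp [dp]

end Words

/-! ### Solving linear systems -/

theorem exists_sol {Ω ε : Type} [Fintype Ω] [DecidableEq Ω] (C : Finset Ω) (E : Finset ε)
    (g : ε → (Ω → F) →ₗ[F] F) (h : E.card < C.card) :
    ∃ x : Ω → F, x ≠ 0 ∧ (∀ c, x c ≠ 0 → c ∈ C) ∧ ∀ e ∈ E, g e x = 0 := by
  let ext : (C → F) →ₗ[F] (Ω → F) :=
    { toFun := fun y c => if hc : c ∈ C then y ⟨c, hc⟩ else 0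
      map_add' := fun y z => by
        funext c
        by_cases hc : c ∈ C <;> simp [hc]
      map_smul' := fun a y => by
        funext c
        by_cases hc : c ∈ C <;> simp [hc] }
  let G : (C → F) →ₗ[F] (E → F) := LinearMap.pi fun e => g e.1 ∘ₗ ext
  have h1 : LinearMap.ker G ≠ ⊥ := LinearMap.ker_ne_bot_of_finrank_lt (by simpa using h)
  obtain ⟨y, hy, hy0⟩ := Submodule.exists_mem_ne_zero_of_ne_bot h1
  refine ⟨ext y, fun h0 => hy0 (funext fun c => ?_), fun c hc => ?_, fun e he => ?_⟩
  · have := congrFun h0 c.1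
    simpa [ext, c.2] using this
  · by_contra hc'
    exact hc (by simp [ext, hc'])
  · exact congrFun (LinearMap.mem_ker.1 hy) ⟨e, he⟩

theorem exists_sol₂ {Ω ε : Type} [Fintype Ω] [DecidableEq Ω] (C : Finset Ω) (E : Finset ε)
    (g : ε → (Ω → F) →ₗ[F] F) (h : E.card + 1 < C.card) :
    ∃ (x y : Ω → F) (c₁ c₂ : Ω), x c₁ = 1 ∧ x c₂ = 0 ∧ y c₁ = 0 ∧ y c₂ = 1 ∧
      (∀ c, x c ≠ 0 → c ∈ C) ∧ (∀ c, y c ≠ 0 → c ∈ C) ∧
      (∀ e ∈ E, g e x = 0) ∧ ∀ e ∈ E, g e y = 0 := by
  obtain ⟨x, hx0, hx1, hx2⟩ := exists_sol C E g (by omega)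
  obtain ⟨c₁, hc₁⟩ := Function.ne_iff.1 hx0
  obtain ⟨y, hy0, hy1, hy2⟩ := exists_sol (C.erase c₁) E g (by
    rw [Finset.card_erase_of_mem (hx1 _ hc₁)]; omega)
  obtain ⟨c₂, hc₂⟩ := Function.ne_iff.1 hy0
  have e1 : x c₁ = 1 := (F_cases _).resolve_left hc₁
  have e2 : y c₂ = 1 := (F_cases _).resolve_left hc₂
  have e3 : y c₁ = 0 := by
    by_contra h'
    simpa using hy1 _ h'
  refine ⟨x - x c₂ • y, y, c₁, c₂, by simp [e1, e3], by simp [e2], e3, e2, fun c hc => ?_,
    fun c hc => Finset.mem_of_mem_erase (hy1 c hc), fun e he => ?_, hy2⟩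
  · by_contra h'
    have a1 : x c = 0 := by
      by_contra h''
      exact h' (hx1 c h'')
    have a2 : y c = 0 := by
      by_contra h''
      exact h' (Finset.mem_of_mem_erase (hy1 c h''))
    exact hc (by simp [a1, a2])
  · rw [map_sub, map_smul, hx2 e he, hy2 e he]
    simp

/-! ### Intervals and shifts -/

/-- An interval of digits. -/
def iv (r lo hi : ℕ) : Finset (Fin r) := Finset.univ.filter fun s => lo ≤ s.val ∧ s.val < hi

theorem mem_iv {r lo hi : ℕ} {s : Fin r} : s ∈ iv r lo hi ↔ lo ≤ s.val ∧ s.val < hi := by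
  simp [iv]

theorem card_iv_le (r lo hi : ℕ) : (iv r lo hi).card ≤ hi - lo := by
  rw [← Nat.card_Ico]
  exact Finset.card_le_card_of_injOn Fin.val (fun s hs => by simpa using mem_iv.1 hs)
    (fun _ _ _ _ h => Fin.ext h)

theorem card_iv (r lo hi : ℕ) (h : hi ≤ r) : (iv r lo hi).card = hi - lo := by
  have : iv r lo hi = (Finset.Ico lo hi).attachFin (fun m hm => by
      have := (Finset.mem_Ico.1 hm).2
      omega) := by
    ext s
    rw [mem_iv, Finset.mem_attachFin, Finset.mem_Ico]
  rw [this, Finset.card_attachFin, Nat.card_Ico]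

/-- The upward shift. -/
def N (r : ℕ) : Matrix (Fin r) (Fin r) F := fun s t => if s.val = t.val + 1 then 1 else 0

/-- The downward shift. -/
def N' (r : ℕ) : Matrix (Fin r) (Fin r) F := fun s t => if t.val = s.val + 1 then 1 else 0

theorem shift_gen (r : ℕ) (B : Subalgebra F (Matrix (Fin r) (Fin r) F)) (h1 : N r ∈ B)
    (h2 : N' r ∈ B) (A : Matrix (Fin r) (Fin r) F) : A ∈ B := by
  have h0 : ∀ s t : Fin r, s.val = 0 → t.val = 0 → single s t (1 : F) ∈ B := by
    intro s t hs ht
    have : single s t (1 : F) = 1 - N r * N' r := by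
      ext a b
      rw [Matrix.sub_apply, Matrix.mul_apply]
      by_cases ha : a.val = 0
      · rw [Finset.sum_eq_zero fun c _ => by simp [N, ha]]
        simp only [single, Matrix.of_apply, Matrix.one_apply, sub_zero, Fin.ext_iff]
        exact if_congr (by omega) rfl rfl
      · rw [Finset.sum_eq_single ⟨a.val - 1, by omega⟩]
        · have e1 : a.val = a.val - 1 + 1 := by omega
          have e2 : ¬ (s.val = a.val ∧ t.val = b.val) := by omega
          simp only [single, Matrix.of_apply, Matrix.one_apply, Fin.ext_iff, N, N', ← e1, if_true,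
            one_mul, if_neg e2, eq_comm (a := b.val), sub_self]
        · intro c _ hc
          have : ¬ a.val = c.val + 1 := fun h => hc (Fin.ext (by simp; omega))
          simp [N, this]
        · simp
    rw [this]
    exact sub_mem (one_mem _) (mul_mem h1 h2)
  have h3 : ∀ (m : ℕ) (s t : Fin r), s.val = m → t.val = 0 → single s t (1 : F) ∈ B := by
    intro m
    induction m with
    | zero => exact h0
    | succ m ih =>
      intro s t hs ht
      have : single s t (1 : F) = N r * single ⟨m, by omega⟩ t (1 : F) := by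
        ext a b
        by_cases hb : b = t
        · subst hb
          rw [Matrix.mul_single_apply_same]
          simp only [single, Matrix.of_apply, N, Fin.ext_iff, mul_one, and_true]
          exact if_congr (by omega) rfl rfl
        · rw [Matrix.mul_single_apply_of_ne _ _ _ _ _ hb]
          simp [single, Ne.symm hb]
      rw [this]
      exact mul_mem h1 (ih _ _ rfl ht)
  have h4 : ∀ (m : ℕ) (s t : Fin r), t.val = m → single s t (1 : F) ∈ B := by
    intro m
    induction m with
    | zero => exact fun s t ht => h3 _ s t rfl ht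
    | succ m ih =>
      intro s t ht
      have : single s t (1 : F) = single s ⟨m, by omega⟩ (1 : F) * N' r := by
        ext a b
        by_cases ha : a = s
        · subst ha
          rw [Matrix.single_mul_apply_same]
          simp only [single, Matrix.of_apply, N', Fin.ext_iff, one_mul, true_and]
          exact if_congr (by omega) rfl rfl
        · rw [Matrix.single_mul_apply_of_ne _ _ _ _ _ ha]
          simp [single, Ne.symm ha]
      rw [this]
      exact mul_mem (ih _ _ rfl) h2
  rw [Matrix.matrix_eq_sum_single A]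
  refine sum_mem fun s _ => sum_mem fun t _ => ?_
  have : single s t (A s t) = A s t • single s t (1 : F) := by simp
  rw [this]
  exact B.smul_mem (h4 _ s t rfl) _

section Kron

variable {ι o : Type} [Fintype ι] [DecidableEq ι] [Fintype o] [DecidableEq o]

variable (o) in
/-- Amplification of matrices. -/
def kl : Matrix ι ι F →ₐ[F] Matrix (ι × o) (ι × o) F :=
  AlgHom.ofLinearMap
    { toFun := fun A => A ⊗ₖ (1 : Matrix o o F)
      map_add' := fun _ _ => add_kronecker _ _ _
      map_smul' := fun _ _ => smul_kronecker _ _ _ }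
    one_kronecker_one (fun A B => by
      change (A * B) ⊗ₖ (1 : Matrix o o F) = A ⊗ₖ (1 : Matrix o o F) * B ⊗ₖ (1 : Matrix o o F)
      rw [← mul_kronecker_mul, Matrix.mul_one])

variable (ι) in
/-- Amplification of matrices on the other side. -/
def kr : Matrix o o F →ₐ[F] Matrix (ι × o) (ι × o) F :=
  AlgHom.ofLinearMap
    { toFun := fun B => (1 : Matrix ι ι F) ⊗ₖ B
      map_add' := fun _ _ => kronecker_add _ _ _
      map_smul' := fun _ _ => kronecker_smul _ _ _ }
    one_kronecker_one (fun A B => by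
      change (1 : Matrix ι ι F) ⊗ₖ (A * B) = (1 : Matrix ι ι F) ⊗ₖ A * (1 : Matrix ι ι F) ⊗ₖ B
      rw [← mul_kronecker_mul, Matrix.mul_one])

theorem kl_apply (A : Matrix ι ι F) : kl o A = A ⊗ₖ (1 : Matrix o o F) := rfl

theorem kr_apply (B : Matrix o o F) : kr ι B = (1 : Matrix ι ι F) ⊗ₖ B := rfl

end Kron

theorem mul_ne {ι : Type} [Fintype ι] {A B : Matrix ι ι F} {a b : ι} (h : (A * B) a b ≠ 0) :
    ∃ c, A a c ≠ 0 ∧ B c b ≠ 0 := by
  rw [Matrix.mul_apply] at h
  obtain ⟨c, _, hc⟩ := Finset.exists_ne_zero_of_sum_ne_zero h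
  exact ⟨c, left_ne_zero_of_mul hc, right_ne_zero_of_mul hc⟩

theorem add_ne {ι : Type} {A B : Matrix ι ι F} {a b : ι} (h : (A + B) a b ≠ 0) :
    A a b ≠ 0 ∨ B a b ≠ 0 := by
  by_contra h'
  push Not at h'
  exact h (by rw [Matrix.add_apply, h'.1, h'.2, add_zero])

/-! ### Square-zero extensions of finite rings -/

theorem finite_range {τ M R : Type} [Finite τ] [Ring M] [Algebra F M] [Finite M] [Ring R]
    [Algebra F R] (θ : FreeAlgebra F τ →ₐ[F] M) (π : FreeAlgebra F τ →ₐ[F] R)
    (h : ∀ b b', θ b = 0 → θ b' = 0 → π b * π b' = 0) : (Set.range π).Finite := by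
  classical
  let s : M → FreeAlgebra F τ := Function.invFun θ
  have hs : ∀ b, θ (b - s (θ b)) = 0 := fun b => by
    rw [map_sub, Function.invFun_eq (f := θ) ⟨b, rfl⟩, sub_self]
  let y : Option (τ × M) → FreeAlgebra F τ := fun k =>
    match k with
    | none => 1
    | some (l, m) => FreeAlgebra.ι F l * s m
  let z : Option (τ × M) → R := fun k => π (y k - s (θ (y k)))
  let G : Set R := Set.range (fun m => π (s m)) ∪ Set.range z ∪
    Set.range (fun p : M × Option (τ × M) => π (s p.1) * z p.2)
  have hG : G.Finite :=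
    ((Set.finite_range _).union (Set.finite_range _)).union (Set.finite_range _)
  let W := Submodule.span F G
  have hz : ∀ b k, π b * z k ∈ W := fun b k => by
    have : π b * z k = π (s (θ b)) * z k := by
      rw [← sub_eq_zero, ← sub_mul, ← map_sub]
      exact h _ _ (hs _) (hs _)
    rw [this]
    exact Submodule.subset_span (Or.inr ⟨(θ b, k), rfl⟩)
  have hy : ∀ k, π (y k) ∈ W := fun k => by
    have : π (y k) = π (s (θ (y k))) + z k := by simp [z]
    rw [this]
    exact add_mem (Submodule.subset_span (Or.inl (Or.inl ⟨_, rfl⟩)))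
      (Submodule.subset_span (Or.inl (Or.inr ⟨_, rfl⟩)))
  have key : ∀ b, ∀ w ∈ W, π b * w ∈ W := by
    intro b
    induction b using FreeAlgebra.induction with
    | grade0 c =>
      intro w hw
      rw [AlgHom.commutes, ← Algebra.smul_def]
      exact W.smul_mem _ hw
    | grade1 l =>
      intro w hw
      induction hw using Submodule.span_induction with
      | mem w hw =>
        rcases hw with (⟨m, rfl⟩ | ⟨k, rfl⟩) | ⟨p, rfl⟩
        · rw [← map_mul]
          exact hy (some (l, m))
        · exact hz _ _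
        · rw [← mul_assoc, ← map_mul]
          exact hz _ _
      | zero => simp
      | add u v _ _ hu hv => rw [mul_add]; exact add_mem hu hv
      | smul c u _ hu => rw [mul_smul_comm]; exact W.smul_mem _ hu
    | mul a b ha hb =>
      intro w hw
      rw [map_mul, mul_assoc]
      exact ha _ (hb _ hw)
    | add a b ha hb =>
      intro w hw
      rw [map_add, add_mul]
      exact add_mem (ha _ hw) (hb _ hw)
  have hW : (W : Set R).Finite := by
    have : Module.Finite F W := Module.Finite.span_of_finite F hG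
    have : Finite W := Module.finite_of_finite F
    exact Set.toFinite _
  refine hW.subset ?_
  rintro _ ⟨b, rfl⟩
  have := key b _ (hy none)
  simpa [y] using this

end Pool.Agent.Lib.MP_a5bfc0_al
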