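import Mathlib
import Pool.Agent.Lib.MP_a5bfc0_al.Basic

set_option autoImplicit false

namespace Pool.Agent.Lib.MP_a5bfc0_al

open Matrix Kronecker

section Band

variable {σ κ : Type} [Fintype κ] [DecidableEq κ] {r : ℕ}

/-- A matrix moving the last digit by at most `k`. -/
def Band (X : Matrix (κ × Fin r) (κ × Fin r) F) (k : ℕ) : Prop :=
  ∀ a b, X a b ≠ 0 → a.2.val ≤ b.2.val + k ∧ b.2.val ≤ a.2.val + k

/-- A matrix supported near the target rows and the source columns. -/
def Supp (X : Matrix (κ × Fin r) (κ × Fin r) F) (L k : ℕ) : Prop :=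
  ∀ a b, X a b ≠ 0 → (L ≤ a.2.val + k ∧ a.2.val < 2 * L + k) ∧
    (4 * L ≤ b.2.val + k ∧ b.2.val < 5 * L + k)

theorem band_ew {ρ : σ → Matrix (κ × Fin r) (κ × Fin r) F} (h : ∀ v, Band (ρ v) 1)
    (w : List σ) : Band (ew ρ w) w.length := by
  induction w with
  | nil =>
    intro a b hab
    have : a = b := by
      by_contra h'
      exact hab (by rw [ew_nil, Matrix.one_apply_ne h'])
    subst this
    simp
  | cons v w ih =>
    intro a b hab
    rw [ew_cons] at hab
    obtain ⟨c, h1, h2⟩ := mul_ne hab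
    have := h v _ _ h1
    have := ih _ _ h2
    simp only [List.length_cons]
    omega

theorem supp_dw {ρ δ : σ → Matrix (κ × Fin r) (κ × Fin r) F} {L : ℕ} (h : ∀ v, Band (ρ v) 1)
    (hδ : ∀ v, Supp (δ v) L 0) (w : List σ) : Supp (dw ρ w δ) L w.length := by
  induction w with
  | nil => intro a b hab; exact absurd rfl hab
  | cons v w ih =>
    intro a b hab
    rw [dw_cons] at hab
    simp only [List.length_cons]
    rcases add_ne hab with h' | h'
    · obtain ⟨c, h1, h2⟩ := mul_ne h'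
      have := hδ v _ _ h1
      have := band_ew h w _ _ h2
      omega
    · obtain ⟨c, h1, h2⟩ := mul_ne h'
      have := h v _ _ h1
      have := ih _ _ h2
      omega

theorem supp_dp {ρ δ : σ → Matrix (κ × Fin r) (κ × Fin r) F} {L : ℕ} (h : ∀ v, Band (ρ v) 1)
    (hδ : ∀ v, Supp (δ v) L 0) (p : List (List σ)) (hp : ∀ w ∈ p, w.length ≤ L) :
    Supp (dp ρ p δ) L L := by
  induction p with
  | nil => intro a b hab; exact absurd rfl hab
  | cons w p ih =>
    intro a b hab
    rw [dp_cons] at hab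
    rcases add_ne hab with h' | h'
    · have := supp_dw h hδ w _ _ h'
      have := hp w (by simp)
      omega
    · exact ih (fun w' hw' => hp w' (by simp [hw'])) _ _ h'

omit [DecidableEq κ] in
theorem supp_mul {A B : Matrix (κ × Fin r) (κ × Fin r) F} {L k : ℕ} (hA : Supp A L 0)
    (hB : Supp B L k) (hk : k ≤ L) : A * B = 0 := by
  ext a b
  by_contra h
  obtain ⟨c, h1, h2⟩ := mul_ne h
  have := hA _ _ h1
  have := hB _ _ h2
  omega

theorem ew_next {o : Type} [Fintype o] [DecidableEq o]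
    {ρ δ₁ δ₂ : σ → Matrix (κ × Fin r) (κ × Fin r) F} {L : ℕ} (h : ∀ v, Band (ρ v) 1)
    (h₁ : ∀ v, Supp (δ₁ v) L 0) (h₂ : ∀ v, Supp (δ₂ v) L 0) (N₁ N₂ : Matrix o o F)
    (w : List σ) (hw : w.length ≤ L) :
    ew (fun v => ρ v ⊗ₖ (1 : Matrix o o F) + δ₁ v ⊗ₖ N₁ + δ₂ v ⊗ₖ N₂) w =
      ew ρ w ⊗ₖ (1 : Matrix o o F) + dw ρ w δ₁ ⊗ₖ N₁ + dw ρ w δ₂ ⊗ₖ N₂ := by
  induction w with
  | nil => simp [ew_nil, dw_nil]
  | cons v w ih =>
    have hw' : w.length ≤ L := by
      simp only [List.length_cons] at hw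
      omega
    rw [ew_cons, ih hw', ew_cons, dw_cons, dw_cons]
    simp only [mul_add, add_mul, ← mul_kronecker_mul, add_kronecker, Matrix.mul_one,
      Matrix.one_mul, supp_mul (h₁ v) (supp_dw h h₁ w) hw', supp_mul (h₁ v) (supp_dw h h₂ w) hw',
      supp_mul (h₂ v) (supp_dw h h₁ w) hw', supp_mul (h₂ v) (supp_dw h h₂ w) hw', zero_kronecker]
    abel

theorem ep_next {o : Type} [Fintype o] [DecidableEq o]
    {ρ δ₁ δ₂ : σ → Matrix (κ × Fin r) (κ × Fin r) F} {L : ℕ} (h : ∀ v, Band (ρ v) 1)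
    (h₁ : ∀ v, Supp (δ₁ v) L 0) (h₂ : ∀ v, Supp (δ₂ v) L 0) (N₁ N₂ : Matrix o o F)
    (p : List (List σ)) (hp : ∀ w ∈ p, w.length ≤ L) :
    ep (fun v => ρ v ⊗ₖ (1 : Matrix o o F) + δ₁ v ⊗ₖ N₁ + δ₂ v ⊗ₖ N₂) p =
      ep ρ p ⊗ₖ (1 : Matrix o o F) + dp ρ p δ₁ ⊗ₖ N₁ + dp ρ p δ₂ ⊗ₖ N₂ := by
  induction p with
  | nil => simp [ep_nil, dp_nil]
  | cons w p ih =>
    rw [ep_cons, ih (fun w' hw' => hp w' (by simp [hw'])), ew_next h h₁ h₂ _ _ w (hp w (by simp)),
      ep_cons, dp_cons, dp_cons]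
    simp only [add_kronecker]
    abel

end Band

/-- A stage of the construction. -/
structure St (d : ℕ) : Type 1 where
  κ : Type
  [fin : Fintype κ]
  [dec : DecidableEq κ]
  r : ℕ
  ρ : Fin d → Matrix (κ × Fin r) (κ × Fin r) F
  Λ : Finset (Fin d × κ × κ)
  S : ℕ → Finset κ
  T : ℕ → Finset κ

attribute [instance] St.fin St.dec

variable {d : ℕ}

/-- The index set of a stage. -/
abbrev St.ι (st : St d) : Type := st.κ × Fin st.r

/-- The matrix algebra of a stage. -/
abbrev St.Mat (st : St d) : Type := Matrix st.ι st.ι F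

/-- Two directions of perturbation with two dual coordinates. -/
structure Dir (st : St d) : Type where
  δ₁ : Fin d → st.Mat
  δ₂ : Fin d → st.Mat
  c₁ : Fin d × st.ι × st.ι
  c₂ : Fin d × st.ι × st.ι

/-- The next stage. -/
@[reducible] def next (st : St d) (D : Dir st) (j L r' : ℕ) : St d where
  κ := st.ι
  r := r'
  ρ v := st.ρ v ⊗ₖ (1 : Matrix (Fin r') (Fin r') F) + D.δ₁ v ⊗ₖ N r' + D.δ₂ v ⊗ₖ N' r'
  Λ := (st.Λ ×ˢ (Finset.univ : Finset (Fin st.r × Fin st.r))).image
    (fun p => (p.1.1, (p.1.2.1, p.2.1), (p.1.2.2, p.2.2))) ∪ {D.c₁, D.c₂}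
  S i := if i < j then st.S i ×ˢ Finset.univ ∪ (st.T i)ᶜ ×ˢ iv st.r (3 * L) (6 * L) else ∅
  T i := if i < j then st.T i ×ˢ Finset.univ ∪ (st.S i)ᶜ ×ˢ iv st.r 0 (3 * L) else ∅

/-- The duality conditions. -/
def Dir.Dual {st : St d} (D : Dir st) : Prop :=
  D.δ₁ D.c₁.1 D.c₁.2.1 D.c₁.2.2 = 1 ∧ D.δ₁ D.c₂.1 D.c₂.2.1 D.c₂.2.2 = 0 ∧
    D.δ₂ D.c₁.1 D.c₁.2.1 D.c₁.2.2 = 0 ∧ D.δ₂ D.c₂.1 D.c₂.2.1 D.c₂.2.2 = 1

/-- Vanishing at the frozen coordinates. -/
def Free (st : St d) (δ : Fin d → st.Mat) : Prop :=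
  ∀ v a b, δ v a b ≠ 0 → (v, a.1, b.1) ∉ st.Λ

theorem band_next (st : St d) (D : Dir st) (j L r' : ℕ) (v : Fin d) :
    Band ((next st D j L r').ρ v) 1 := by
  rintro ⟨a, s⟩ ⟨b, t⟩ hab
  rcases add_ne hab with h | h
  · rcases add_ne h with h | h
    · have : s = t := by
        by_contra h'
        exact h (by rw [kronecker_apply, Matrix.one_apply_ne h', mul_zero])
      subst this
      simp
    · have : s.val = t.val + 1 := by
        by_contra h'
        exact h (by simp [N, h'])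
      simp only
      omega
  · have : t.val = s.val + 1 := by
      by_contra h'
      exact h (by simp [N', h'])
    simp only
    omega

theorem disj_next (st : St d) (D : Dir st) (j L r' : ℕ) (h : ∀ i, Disjoint (st.S i) (st.T i))
    (i : ℕ) : Disjoint ((next st D j L r').S i) ((next st D j L r').T i) := by
  by_cases hi : i < j
  · simp only [if_pos hi]
    rw [Finset.disjoint_left]
    intro a ha hb
    have : a.1 ∈ st.S i → a.1 ∉ st.T i := fun h' => Finset.disjoint_left.1 (h i) h'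
    simp only [Finset.mem_union, Finset.mem_product, Finset.mem_univ, and_true, Finset.mem_compl,
      mem_iv] at ha hb
    rcases ha with ha | ha <;> rcases hb with hb | hb
    · exact this ha hb
    · exact hb.1 ha
    · exact ha.1 hb
    · omega
  · simp [if_neg hi]

theorem card_Λ_next (st : St d) (D : Dir st) (j L r' : ℕ) :
    (next st D j L r').Λ.card ≤ st.Λ.card * (st.r * st.r) + 2 := by
  refine (Finset.card_union_le _ _).trans (add_le_add (Finset.card_image_le.trans ?_)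
    Finset.card_le_two)
  simp

theorem card_ST_next (st : St d) (D : Dir st) (j L r' : ℕ) :
    ∑ i ∈ Finset.range (j + 1), (((next st D j L r').S i).card + ((next st D j L r').T i).card) ≤
      (∑ i ∈ Finset.range j, ((st.S i).card + (st.T i).card)) * st.r +
        j * (6 * L * Fintype.card st.κ) := by
  rw [Finset.sum_range_succ, Finset.sum_mul]
  have h1 : ∀ (A B : Finset st.κ) (lo hi : ℕ), (A ×ˢ Finset.univ ∪ Bᶜ ×ˢ iv st.r lo hi).card ≤
      A.card * st.r + Fintype.card st.κ * (hi - lo) := by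
    intro A B lo hi
    refine (Finset.card_union_le _ _).trans (add_le_add (by simp) ?_)
    rw [Finset.card_product]
    exact Nat.mul_le_mul (Finset.card_le_univ _) (card_iv_le _ _ _)
  have h2 : j * (6 * L * Fintype.card st.κ) =
      ∑ _i ∈ Finset.range j, 6 * L * Fintype.card st.κ := by simp
  rw [h2, ← Finset.sum_add_distrib]
  simp only [lt_self_iff_false, if_false, Finset.card_empty, add_zero]
  refine Finset.sum_le_sum fun i hi => ?_
  rw [if_pos (Finset.mem_range.1 hi), if_pos (Finset.mem_range.1 hi)]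
  have a1 := h1 (st.S i) (st.T i) (3 * L) (6 * L)
  have a2 := h1 (st.T i) (st.S i) 0 (3 * L)
  rw [show 6 * L - 3 * L = 3 * L by omega] at a1
  rw [Nat.sub_zero] at a2
  nlinarith

/-! ### Definability of matrices -/

/-- A point of a stage over an algebra. -/
def Pt (st : St d) (A : Type) [Ring A] [Algebra F A] (X : Fin d → Matrix st.ι st.ι A) : Prop :=
  ∀ v a b, (v, a.1, b.1) ∈ st.Λ → X v a b = algebraMap F A (st.ρ v a b)

/-- A polynomial taking a constant value on all points of a stage. -/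
def Rep (st : St d) (f : FreeAlgebra F (Fin d)) (M : st.Mat) : Prop :=
  ∀ (A : Type) [Ring A] [Algebra F A] (X : Fin d → Matrix st.ι st.ι A), Pt st A X →
    FreeAlgebra.lift F X f = M.map (algebraMap F A)

theorem Rep.self {st : St d} {f : FreeAlgebra F (Fin d)} {M : st.Mat} (h : Rep st f M) :
    FreeAlgebra.lift F st.ρ f = M := by
  rw [h F st.ρ (fun _ _ _ _ => rfl)]
  ext a b
  simp

/-- The definable matrices. -/
def defs (st : St d) : Subalgebra F st.Mat where
  carrier := {M | ∃ f, Rep st f M}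
  mul_mem' := by
    rintro M M' ⟨f, hf⟩ ⟨f', hf'⟩
    refine ⟨f * f', fun A _ _ X hX => ?_⟩
    rw [map_mul, hf A X hX, hf' A X hX, Matrix.map_mul]
  add_mem' := by
    rintro M M' ⟨f, hf⟩ ⟨f', hf'⟩
    refine ⟨f + f', fun A _ _ X hX => ?_⟩
    rw [map_add, hf A X hX, hf' A X hX, Matrix.map_add _ (map_add _)]
  algebraMap_mem' c := by
    refine ⟨algebraMap _ _ c, fun A _ _ X _ => ?_⟩
    rw [AlgHom.commutes]
    ext a b
    simp only [Matrix.algebraMap_matrix_apply, Matrix.map_apply]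
    split_ifs <;> simp

section Transfer

variable {st : St d} {D : Dir st} {j L r' : ℕ} {A : Type} [Ring A] [Algebra F A]

/-- A point of the next stage seen at the previous stage. -/
def down (X : Fin d → Matrix (st.ι × Fin r') (st.ι × Fin r') A) (v : Fin d) :
    Matrix st.ι st.ι (Matrix (Fin r') (Fin r') A) :=
  (compAlgEquiv st.ι (Fin r') A F).symm (X v)

theorem down_apply (X : Fin d → Matrix (st.ι × Fin r') (st.ι × Fin r') A) (v : Fin d)
    (a b : st.ι) (s t : Fin r') : down X v a b s t = X v (a, s) (b, t) := rfl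

theorem lift_down (X : Fin d → Matrix (st.ι × Fin r') (st.ι × Fin r') A)
    (f : FreeAlgebra F (Fin d)) :
    FreeAlgebra.lift F X f = compAlgEquiv st.ι (Fin r') A F (FreeAlgebra.lift F (down X) f) := by
  have : FreeAlgebra.lift F X = (compAlgEquiv st.ι (Fin r') A F).toAlgHom.comp
      (FreeAlgebra.lift F (down X)) := by
    apply FreeAlgebra.hom_ext
    funext v
    simp [down]
  rw [this]
  rfl

theorem pt_down (h₁ : Free st D.δ₁) (h₂ : Free st D.δ₂)
    {X : Fin d → Matrix (st.ι × Fin r') (st.ι × Fin r') A} (hX : Pt (next st D j L r') A X) :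
    Pt st (Matrix (Fin r') (Fin r') A) (down X) := by
  intro v a b hab
  ext s t
  have e1 : D.δ₁ v a b = 0 := by
    by_contra h'
    exact h₁ v a b h' hab
  have e2 : D.δ₂ v a b = 0 := by
    by_contra h'
    exact h₂ v a b h' hab
  rw [down_apply, hX v (a, s) (b, t) (Finset.mem_union_left _ (Finset.mem_image.2
    ⟨((v, a.1, b.1), (a.2, b.2)), by simpa using hab, rfl⟩)), Matrix.algebraMap_matrix_apply]
  simp only [Matrix.add_apply, kronecker_apply, e1, e2, zero_mul, add_zero, Matrix.one_apply]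
  split_ifs <;> simp

theorem rep_next (h₁ : Free st D.δ₁) (h₂ : Free st D.δ₂) {f : FreeAlgebra F (Fin d)}
    {M : st.Mat} (h : Rep st f M) : Rep (next st D j L r') f (kl (Fin r') M) := by
  intro A _ _ X hX
  rw [lift_down, h _ _ (pt_down h₁ h₂ hX)]
  ext ⟨a, s⟩ ⟨b, t⟩
  simp only [compAlgEquiv_apply, Matrix.comp_apply, Matrix.map_apply, kl_apply, kronecker_apply,
    Matrix.algebraMap_matrix_apply, Matrix.one_apply]
  split_ifs <;> simp

theorem sum_single {ι B : Type} [Fintype ι] [DecidableEq ι] [Ring B] (X : Matrix ι ι B)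
    (a b : ι) :
    ∑ c : ι, single c a (1 : B) * X * single b c (1 : B) = diagonal fun _ => X a b := by
  simp only [Matrix.single_mul_mul_single, one_mul, mul_one]
  exact Matrix.sum_single_eq_diagonal _

theorem block_def (h₁ : Free st D.δ₁) (h₂ : Free st D.δ₂) (h : ∀ M, M ∈ defs st)
    (c : Fin d × st.ι × st.ι) (hc : c ∈ (next st D j L r').Λ) :
    kr st.ι (st.ρ c.1 c.2.1 c.2.2 • 1 + D.δ₁ c.1 c.2.1 c.2.2 • N r' +
      D.δ₂ c.1 c.2.1 c.2.2 • N' r') ∈ defs (next st D j L r') := by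
  obtain ⟨v, a, b⟩ := c
  choose g hg using h
  refine ⟨∑ c, g (single c a 1) * FreeAlgebra.ι F v * g (single b c 1), fun A _ _ X hX => ?_⟩
  have hd := pt_down h₁ h₂ hX
  rw [lift_down]
  simp only [map_sum (FreeAlgebra.lift F (down X)), map_mul (FreeAlgebra.lift F (down X)),
    hg _ _ _ hd, FreeAlgebra.lift_ι_apply, Matrix.map_single, map_one]
  rw [sum_single]
  ext ⟨a', s⟩ ⟨b', t⟩
  simp only [compAlgEquiv_apply, Matrix.comp_apply, Matrix.map_apply, kr_apply, kronecker_apply,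
    Matrix.diagonal_apply, Matrix.one_apply]
  split_ifs
  · rw [down_apply, hX v (a, s) (b, t) hc]
    simp [Matrix.one_apply]
  · simp

theorem def_next (h₁ : Free st D.δ₁) (h₂ : Free st D.δ₂) (hD : D.Dual) (h : ∀ M, M ∈ defs st)
    (M : (next st D j L r').Mat) : M ∈ defs (next st D j L r') := by
  have e1 := block_def (j := j) (L := L) (r' := r') h₁ h₂ h D.c₁ (by simp)
  have e2 := block_def (j := j) (L := L) (r' := r') h₁ h₂ h D.c₂ (by simp)
  rw [hD.1, hD.2.2.1, one_smul, zero_smul, add_zero, map_add, map_smul, map_one] at e1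
  rw [hD.2.1, hD.2.2.2, one_smul, zero_smul, add_zero, map_add, map_smul, map_one] at e2
  have e1' := (add_mem_cancel_left (Subalgebra.smul_mem _ (one_mem _) _)).1 e1
  have e2' := (add_mem_cancel_left (Subalgebra.smul_mem _ (one_mem _) _)).1 e2
  have e3 : ∀ B, kr st.ι B ∈ defs (next st D j L r') := fun B =>
    shift_gen r' ((defs (next st D j L r')).comap (kr st.ι)) e1' e2' B
  have e4 : ∀ B, kl (Fin r') B ∈ defs (next st D j L r') := fun B => by
    obtain ⟨f, hf⟩ := h B
    exact ⟨f, rep_next h₁ h₂ hf⟩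
  rw [Matrix.matrix_eq_sum_single M]
  refine sum_mem fun a _ => sum_mem fun b _ => ?_
  have : single a b (M a b) = kl (Fin r') (single a.1 b.1 (M a b)) * kr st.ι (single a.2 b.2 1) := by
    rw [kl_apply, kr_apply, ← mul_kronecker_mul, Matrix.mul_one, Matrix.one_mul,
      Matrix.single_kronecker_single, mul_one]
  rw [this]
  exact mul_mem (e4 _) (e3 _)

end Transfer

end Pool.Agent.Lib.MP_a5bfc0_al
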