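import Mathlib
import Pool.Agent.Lib.MP_a5bfc0_al.Stage

set_option autoImplicit false

namespace Pool.Agent.Lib.MP_a5bfc0_al

open Matrix Kronecker

variable {d : ℕ} {τ : Type} (tup : ℕ → τ → List (List (Fin d)))

/-- Admissible directions at step `j`. -/
def Adm (st : St d) (j L : ℕ) (δ : Fin d → st.Mat) : Prop :=
  (∀ v, Supp (δ v) L 0) ∧ Free st δ ∧ (∀ l, dp st.ρ (tup j l) δ = 0) ∧
    ∀ i < j, ∀ l a b, dp st.ρ (tup i l) δ a b ≠ 0 → a.1 ∉ st.S i ∧ b.1 ∉ st.T i

/-- Currying of coordinates. -/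
def cur (st : St d) : (Fin d × st.ι × st.ι → F) →ₗ[F] (Fin d → st.Mat) where
  toFun x v := Matrix.of fun a b => x (v, a, b)
  map_add' _ _ := rfl
  map_smul' _ _ := rfl

theorem exists_dir [Fintype τ] (st : St d) (j L : ℕ) (hL : 0 < L) (hr : 6 * L ≤ st.r)
    (hn : 0 < Fintype.card st.κ)
    (hΛ : st.Λ.card + 1 ≤ 3 * (Fintype.card st.κ * Fintype.card st.κ))
    (hb : ∀ v, Band (st.ρ v) 1)
    (hST : ∑ i ∈ Finset.range j, ((st.S i).card + (st.T i).card) ≤ Fintype.card st.κ)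
    (hd : 18 * Fintype.card τ + 5 ≤ d) (hlen : ∀ i ≤ j, ∀ l, ∀ w ∈ tup i l, w.length ≤ L) :
    ∃ D : Dir st, D.Dual ∧ Adm tup st j L D.δ₁ ∧ Adm tup st j L D.δ₂ := by
  classical
  let P := iv st.r L (2 * L)
  let Q := iv st.r (4 * L) (5 * L)
  let P' := iv st.r 0 (3 * L)
  let Q' := iv st.r (3 * L) (6 * L)
  have cP : P.card = L := by rw [card_iv _ _ _ (by omega)]; omega
  have cQ : Q.card = L := by rw [card_iv _ _ _ (by omega)]; omega
  have cP' : P'.card = 3 * L := by rw [card_iv _ _ _ (by omega)]; omega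
  have cQ' : Q'.card = 3 * L := by rw [card_iv _ _ _ (by omega)]; omega
  let C : Finset (Fin d × st.ι × st.ι) := (st.Λᶜ ×ˢ P ×ˢ Q).image
    (fun p => (p.1.1, (p.1.2.1, p.2.1), (p.1.2.2, p.2.2)))
  let U : Finset st.κ := Finset.univ
  let E : Finset (ℕ × τ × st.ι × st.ι) :=
    {j} ×ˢ Finset.univ ×ˢ (U ×ˢ P') ×ˢ (U ×ˢ Q') ∪ (Finset.range j).biUnion fun i =>
      {i} ×ˢ Finset.univ ×ˢ ((st.S i ×ˢ P') ×ˢ (U ×ˢ Q') ∪ (U ×ˢ P') ×ˢ (st.T i ×ˢ Q'))
  let g : ℕ × τ × st.ι × st.ι → (Fin d × st.ι × st.ι → F) →ₗ[F] F := fun e =>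
    Matrix.entryLinearMap F F e.2.2.1 e.2.2.2 ∘ₗ dp st.ρ (tup e.1 e.2.1) ∘ₗ cur st
  set n := Fintype.card st.κ with hn'
  set K := Fintype.card τ with hK
  have cC : C.card + st.Λ.card * (L * L) = d * (n * n) * (L * L) := by
    rw [Finset.card_image_of_injective _ (by
      rintro ⟨⟨v, a, b⟩, s, t⟩ ⟨⟨v', a', b'⟩, s', t'⟩ h
      simp only [Prod.mk.injEq] at h ⊢
      tauto), Finset.card_product, Finset.card_product, cP, cQ, ← add_mul,
      Finset.card_compl_add_card]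
    simp [n]
  have cE : E.card ≤ K * (n * (3 * L) * (n * (3 * L))) + K * (9 * (L * L) * n) * n := by
    refine (Finset.card_union_le _ _).trans (add_le_add ?_ ?_)
    · simp only [Finset.card_product, Finset.card_singleton, Finset.card_univ, cP', cQ', U, one_mul]
      rfl
    · refine Finset.card_biUnion_le.trans (le_trans ?_ (Nat.mul_le_mul_left _ hST))
      rw [Finset.mul_sum]
      refine Finset.sum_le_sum fun i _ => ?_
      rw [Finset.card_product, Finset.card_product, Finset.card_singleton, one_mul,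
        Finset.card_univ, mul_assoc]
      refine Nat.mul_le_mul_left _ ((Finset.card_union_le _ _).trans (le_of_eq ?_))
      simp only [Finset.card_product, Finset.card_univ, cP', cQ', U]
      ring
  have hcard : E.card + 1 < C.card := by
    have a1 : 1 ≤ n * n * (L * L) := Nat.mul_pos (Nat.mul_pos hn hn) (Nat.mul_pos hL hL)
    have a2 : st.Λ.card * (L * L) ≤ 3 * (n * n) * (L * L) := Nat.mul_le_mul_right _ (by omega)
    have a3 : (18 * K + 5) * (n * n) * (L * L) ≤ d * (n * n) * (L * L) :=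
      Nat.mul_le_mul_right _ (Nat.mul_le_mul_right _ hd)
    have a4 : K * (n * (3 * L) * (n * (3 * L))) + K * (9 * (L * L) * n) * n =
      18 * (K * (n * n * (L * L))) := by ring
    have a5 : (18 * K + 5) * (n * n) * (L * L) =
      18 * (K * (n * n * (L * L))) + 5 * (n * n * (L * L)) := by ring
    have a6 : 3 * (n * n) * (L * L) = 3 * (n * n * (L * L)) := by ring
    omega
  obtain ⟨x, y, c₁, c₂, e1, e2, e3, e4, hx, hy, gx, gy⟩ := exists_sol₂ C E g hcard
  have key : ∀ z : Fin d × st.ι × st.ι → F, (∀ c, z c ≠ 0 → c ∈ C) → (∀ e ∈ E, g e z = 0) →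
      Adm tup st j L (cur st z) := by
    intro z hz gz
    have hC : ∀ v a b, cur st z v a b ≠ 0 → (v, a.1, b.1) ∉ st.Λ ∧ a.2 ∈ P ∧ b.2 ∈ Q := by
      intro v a b h
      obtain ⟨p, hp, hp'⟩ := Finset.mem_image.1 (hz (v, a, b) h)
      simp only [Prod.mk.injEq] at hp'
      obtain ⟨rfl, rfl, rfl⟩ := hp'
      simpa using hp
    have hS : ∀ v, Supp (cur st z v) L 0 := fun v a b h => by
      have h1 := mem_iv.1 (hC v a b h).2.1
      have h2 := mem_iv.1 (hC v a b h).2.2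
      omega
    have hP : ∀ i ≤ j, ∀ l a b, dp st.ρ (tup i l) (cur st z) a b ≠ 0 → a.2 ∈ P' ∧ b.2 ∈ Q' := by
      intro i hi l a b h
      have := supp_dp hb hS (tup i l) (hlen i hi l) a b h
      simp only [P', Q', mem_iv]
      omega
    refine ⟨hS, fun v a b h => (hC v a b h).1, fun l => ?_, fun i hi l a b h => ?_⟩
    · ext a b
      by_contra h
      have h1 := hP j le_rfl l a b h
      exact h (gz (j, l, a, b) (Finset.mem_union_left _ (by simpa [U] using h1)))
    · have h1 := hP i hi.le l a b h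
      constructor
      · intro h2
        exact h (gz (i, l, a, b) (Finset.mem_union_right _ (Finset.mem_biUnion.2
          ⟨i, Finset.mem_range.2 hi, by simp [U, h1.1, h1.2, h2]⟩)))
      · intro h2
        exact h (gz (i, l, a, b) (Finset.mem_union_right _ (Finset.mem_biUnion.2
          ⟨i, Finset.mem_range.2 hi, by simp [U, h1.1, h1.2, h2]⟩)))
  exact ⟨⟨cur st x, cur st y, c₁, c₂⟩, ⟨e1, e2, e3, e4⟩, key x hx gx, key y hy gy⟩

/-- The `i`-th tuple acts as a square-zero perturbation of a fixed finite algebra. -/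
def Tup (st : St d) (i : ℕ) (M : Type) [Ring M] [Algebra F M] (α : τ → M) : Prop :=
  ∃ φ : M →ₐ[F] st.Mat, (∀ m a b, φ m a b ≠ 0 →
      a.2 = b.2 ∧ (a.1 ∈ st.S i ↔ b.1 ∈ st.S i) ∧ (a.1 ∈ st.T i ↔ b.1 ∈ st.T i)) ∧
    ∀ l a b, (ep st.ρ (tup i l) - φ (α l)) a b ≠ 0 → a.1 ∈ st.T i ∧ b.1 ∈ st.S i

theorem kl_ne {ι o : Type} [Fintype ι] [DecidableEq ι] [Fintype o] [DecidableEq o]
    {A : Matrix ι ι F} {a b : ι × o} (h : kl o A a b ≠ 0) : A a.1 b.1 ≠ 0 ∧ a.2 = b.2 := by
  refine ⟨left_ne_zero_of_mul h, ?_⟩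
  by_contra h'
  exact right_ne_zero_of_mul h (Matrix.one_apply_ne h')

variable {tup}

theorem tup_init {st : St d} {D : Dir st} {j L r' : ℕ} (hb : ∀ v, Band (st.ρ v) 1)
    (h₁ : Adm tup st j L D.δ₁) (h₂ : Adm tup st j L D.δ₂)
    (hlen : ∀ l, ∀ w ∈ tup j l, w.length ≤ L) :
    Tup tup (next st D j L r') j st.Mat (fun l => ep st.ρ (tup j l)) := by
  refine ⟨kl (Fin r'), fun m a b h => ⟨(kl_ne h).2, by simp, by simp⟩, fun l a b h => ?_⟩
  exfalso
  apply h
  simp only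
  rw [ep_next hb h₁.1 h₂.1 _ _ _ (hlen l), h₁.2.2.1, h₂.2.2.1, kl_apply]
  simp

theorem tup_step {st : St d} {D : Dir st} {i j L r' : ℕ} (hb : ∀ v, Band (st.ρ v) 1)
    (h₁ : Adm tup st j L D.δ₁) (h₂ : Adm tup st j L D.δ₂) (hi : i < j)
    (hlen : ∀ l, ∀ w ∈ tup i l, w.length ≤ L) {M : Type} [Ring M] [Algebra F M] {α : τ → M}
    (h : Tup tup st i M α) : Tup tup (next st D j L r') i M α := by
  obtain ⟨φ, hφ, hα⟩ := h
  refine ⟨(kl (Fin r')).comp φ, fun m a b h => ?_, fun l a b h => ?_⟩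
  · obtain ⟨e1, e2⟩ := kl_ne h
    obtain ⟨e3, e4, e5⟩ := hφ m _ _ e1
    refine ⟨e2, ?_, ?_⟩
    · simp only [if_pos hi, Finset.mem_union, Finset.mem_product, Finset.mem_univ, and_true,
        Finset.mem_compl, e3, e4, e5]
    · simp only [if_pos hi, Finset.mem_union, Finset.mem_product, Finset.mem_univ, and_true,
        Finset.mem_compl, e3, e4, e5]
  · have key : ∀ δ, Adm tup st j L δ → dp st.ρ (tup i l) δ a.1 b.1 ≠ 0 →
        a.1 ∈ (next st D j L r').T i ∧ b.1 ∈ (next st D j L r').S i := by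
      intro δ hδ h'
      have e1 := hδ.2.2.2 i hi l _ _ h'
      have e2 := supp_dp hb hδ.1 (tup i l) (hlen l) _ _ h'
      simp only [if_pos hi, Finset.mem_union, Finset.mem_product, Finset.mem_univ, and_true,
        Finset.mem_compl, mem_iv]
      exact ⟨Or.inr ⟨e1.1, by omega⟩, Or.inr ⟨e1.2, by omega⟩⟩
    have e : ep (next st D j L r').ρ (tup i l) - ((kl (Fin r')).comp φ) (α l) =
        kl (Fin r') (ep st.ρ (tup i l) - φ (α l)) + dp st.ρ (tup i l) D.δ₁ ⊗ₖ N r' +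
          dp st.ρ (tup i l) D.δ₂ ⊗ₖ N' r' := by
      simp only
      rw [ep_next hb h₁.1 h₂.1 _ _ _ (hlen l), map_sub, AlgHom.comp_apply,
        kl_apply (ep st.ρ (tup i l))]
      abel
    rw [e] at h
    rcases add_ne h with h | h
    · rcases add_ne h with h | h
      · have e1 := hα l _ _ (kl_ne h).1
        simp only [if_pos hi, Finset.mem_union, Finset.mem_product, Finset.mem_univ, and_true]
        exact ⟨Or.inl e1.1, Or.inl e1.2⟩
      · exact key _ h₁ (left_ne_zero_of_mul h)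
    · exact key _ h₂ (left_ne_zero_of_mul h)

theorem tup_sq {st : St d} {i : ℕ} {M : Type} [Ring M] [Algebra F M] {α : τ → M}
    (h : Tup tup st i M α) (hd : Disjoint (st.S i) (st.T i)) (f f' : FreeAlgebra F τ)
    (hf : FreeAlgebra.lift F α f = 0) (hf' : FreeAlgebra.lift F α f' = 0) :
    FreeAlgebra.lift F (fun l => ep st.ρ (tup i l)) f *
      FreeAlgebra.lift F (fun l => ep st.ρ (tup i l)) f' = 0 := by
  obtain ⟨φ, hφ, hα⟩ := h
  let Sup : st.Mat → Prop := fun E => ∀ a b, E a b ≠ 0 → a.1 ∈ st.T i ∧ b.1 ∈ st.S i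
  have s0 : ∀ E E', Sup E → Sup E' → E * E' = 0 := by
    intro E E' hE hE'
    ext a b
    by_contra h'
    obtain ⟨c, h1, h2⟩ := mul_ne h'
    exact Finset.disjoint_left.1 hd (hE _ _ h1).2 (hE' _ _ h2).1
  have sadd : ∀ E E', Sup E → Sup E' → Sup (E + E') := fun E E' hE hE' a b h' =>
    (add_ne h').elim (hE a b) (hE' a b)
  have key : ∀ g : FreeAlgebra F τ, Sup (FreeAlgebra.lift F (fun l => ep st.ρ (tup i l)) g -
      φ (FreeAlgebra.lift F α g)) := by
    intro g
    induction g using FreeAlgebra.induction with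
    | grade0 c =>
      intro a b h'
      exact absurd (by simp) h'
    | grade1 l =>
      rw [FreeAlgebra.lift_ι_apply, FreeAlgebra.lift_ι_apply]
      exact hα l
    | add g g' hg hg' =>
      rw [map_add, map_add, map_add, add_sub_add_comm]
      exact sadd _ _ hg hg'
    | mul g g' hg hg' =>
      rw [map_mul, map_mul, map_mul]
      generalize FreeAlgebra.lift F (fun l => ep st.ρ (tup i l)) g = X at hg
      generalize FreeAlgebra.lift F (fun l => ep st.ρ (tup i l)) g' = X' at hg'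
      generalize FreeAlgebra.lift F α g = m at hg
      generalize FreeAlgebra.lift F α g' = m' at hg'
      have e : X * X' - φ m * φ m' = (X - φ m) * (X' - φ m') +
          (φ m * (X' - φ m') + (X - φ m) * φ m') := by noncomm_ring
      rw [e, s0 _ _ hg hg', zero_add]
      refine sadd _ _ (fun a b h' => ?_) (fun a b h' => ?_)
      · obtain ⟨c, h1, h2⟩ := mul_ne h'
        exact ⟨(hφ _ _ _ h1).2.2.2 (hg' _ _ h2).1, (hg' _ _ h2).2⟩
      · obtain ⟨c, h1, h2⟩ := mul_ne h'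
        exact ⟨(hg _ _ h1).1, (hφ _ _ _ h2).2.1.1 (hg _ _ h1).2⟩
  have k1 := key f
  have k2 := key f'
  rw [hf, map_zero, sub_zero] at k1
  rw [hf', map_zero, sub_zero] at k2
  exact s0 _ _ k1 k2

end Pool.Agent.Lib.MP_a5bfc0_al
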