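import Mathlib
import Pool.Agent.Lib.MP_a5bfc0_al.Tuple

set_option autoImplicit false

namespace Pool.Agent.Lib.MP_a5bfc0_al

open Matrix Kronecker

/-- The parameters of the construction. -/
structure Par (τ : Type) [Fintype τ] (d : ℕ) : Type where
  tup : ℕ → τ → List (List (Fin d))
  L : ℕ → ℕ
  pos : ∀ j, 0 < L j
  len : ∀ j, ∀ i ≤ j, ∀ l, ∀ w ∈ tup i l, w.length ≤ L j
  hd : 18 * Fintype.card τ + 5 ≤ d

variable {τ : Type} [Fintype τ] {d : ℕ} (p : Par τ d)

/-- The number of values of the `j`-th digit. -/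
def Par.r (j : ℕ) : ℕ := 2 ^ (j + 1) * ((j + 1) * (6 * p.L j))

theorem Par.le_r (j : ℕ) : (j + 1) * (6 * p.L j) ≤ p.r j :=
  Nat.le_mul_of_pos_left _ (by positivity)

/-- The invariant of the construction. -/
structure Par.Inv (j : ℕ) (st : St d) : Prop where
  hr : st.r = p.r j
  hn : 0 < Fintype.card st.κ
  hΛ : st.Λ.card + 1 ≤ 3 * (Fintype.card st.κ * Fintype.card st.κ)
  hb : ∀ v, Band (st.ρ v) 1
  hST : 2 ^ j * ∑ i ∈ Finset.range j, ((st.S i).card + (st.T i).card) + Fintype.card st.κ ≤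
    2 ^ j * Fintype.card st.κ
  disj : ∀ i, Disjoint (st.S i) (st.T i)
  hdef : ∀ M, M ∈ defs st

variable {p}

theorem Par.Inv.ex {j : ℕ} {st : St d} (h : p.Inv j st) :
    ∃ D : Dir st, D.Dual ∧ Adm p.tup st j (p.L j) D.δ₁ ∧ Adm p.tup st j (p.L j) D.δ₂ := by
  refine exists_dir p.tup st j (p.L j) (p.pos j) ?_ h.hn h.hΛ h.hb ?_ p.hd (p.len j)
  · have := p.le_r j
    rw [h.hr]
    nlinarith
  · exact Nat.le_of_mul_le_mul_left (le_trans (Nat.le_add_right _ _) h.hST) (by positivity)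

theorem Par.Inv.step {j : ℕ} {st : St d} (h : p.Inv j st) :
    p.Inv (j + 1) (next st h.ex.choose j (p.L j) (p.r (j + 1))) := by
  obtain ⟨h0, h1, h2⟩ := h.ex.choose_spec
  have hc : Fintype.card (next st h.ex.choose j (p.L j) (p.r (j + 1))).κ =
      Fintype.card st.κ * st.r := by simp
  have hr : 2 ≤ st.r := by
    have := p.le_r j
    have := p.pos j
    rw [h.hr]
    nlinarith
  refine ⟨rfl, ?_, ?_, band_next _ _ _ _ _, ?_, disj_next _ _ _ _ _ h.disj,
    def_next h1.2.1 h2.2.1 h0 h.hdef⟩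
  · rw [hc]
    exact Nat.mul_pos h.hn (by omega)
  · have a1 := card_Λ_next st h.ex.choose j (p.L j) (p.r (j + 1))
    have a2 := Nat.mul_le_mul_right (st.r * st.r) h.hΛ
    have a3 : 4 ≤ st.r * st.r := Nat.mul_le_mul hr hr
    rw [hc]
    nlinarith
  · have a1 := card_ST_next st h.ex.choose j (p.L j) (p.r (j + 1))
    have a2 := Nat.mul_le_mul_right (2 * st.r) h.hST
    have a3 : 2 ^ (j + 1) * (j * (6 * p.L j)) ≤ st.r := by
      rw [h.hr]
      exact Nat.mul_le_mul_left _ (Nat.mul_le_mul_right _ (by omega))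
    have a4 := Nat.mul_le_mul_right (Fintype.card st.κ) a3
    have a5 := Nat.mul_le_mul_left (2 ^ (j + 1)) a1
    rw [hc]
    rw [pow_succ] at a4 a5 ⊢
    nlinarith

/-- The empty stage. -/
@[reducible] def st₀ (d : ℕ) : St d where
  κ := Unit
  r := 1
  ρ _ := 0
  Λ := ∅
  S _ := ∅
  T _ := ∅

variable (p)

/-- The first two directions. -/
def Par.dir₀ : Dir (st₀ d) where
  δ₁ v := Matrix.of fun _ _ => if v.val = 0 then 1 else 0
  δ₂ v := Matrix.of fun _ _ => if v.val = 1 then 1 else 0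
  c₁ := (⟨0, by have := p.hd; omega⟩, default, default)
  c₂ := (⟨1, by have := p.hd; omega⟩, default, default)

theorem Par.inv₀ : p.Inv 0 (next (st₀ d) p.dir₀ 0 0 (p.r 0)) := by
  refine ⟨rfl, by simp, ?_, band_next _ _ _ _ _, by simp, disj_next _ _ _ _ _ (by simp),
    def_next (fun _ _ _ _ => by simp) (fun _ _ _ _ => by simp) (by simp [Dir.Dual, Par.dir₀]) ?_⟩
  · have := card_Λ_next (st₀ d) p.dir₀ 0 0 (p.r 0)
    simp only [Finset.card_empty, zero_mul, zero_add] at this
    simpa using Nat.lt_succ_of_le this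
  · intro M
    have : M = algebraMap F _ (M default default) := by
      ext a b
      rw [Subsingleton.elim a default, Subsingleton.elim b default]
      simp [Matrix.algebraMap_matrix_apply]
    rw [this]
    exact Subalgebra.algebraMap_mem _ _

/-- The sequence of stages. -/
noncomputable def Par.seq : (j : ℕ) → {st : St d // p.Inv j st}
  | 0 => ⟨_, p.inv₀⟩
  | j + 1 => ⟨_, (Par.seq j).2.step⟩

theorem Par.rep_le {j j' : ℕ} (h : j ≤ j') : ∃ φ : (p.seq j).1.Mat →ₐ[F] (p.seq j').1.Mat,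
    ∀ f M, Rep (p.seq j).1 f M → Rep (p.seq j').1 f (φ M) := by
  induction j', h using Nat.le_induction with
  | base => exact ⟨AlgHom.id _ _, fun _ _ h => h⟩
  | succ j' _ ih =>
    obtain ⟨φ, hφ⟩ := ih
    obtain ⟨_, h1, h2⟩ := (p.seq j').2.ex.choose_spec
    exact ⟨(kl (Fin (p.r (j' + 1)))).comp φ, fun f M h => rep_next h1.2.1 h2.2.1 (hφ f M h)⟩

theorem Par.tup_le {i j : ℕ} (h : i + 1 ≤ j) :
    Tup p.tup (p.seq j).1 i (p.seq i).1.Mat (fun l => ep (p.seq i).1.ρ (p.tup i l)) := by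
  induction j, h using Nat.le_induction with
  | base =>
    obtain ⟨_, h1, h2⟩ := (p.seq i).2.ex.choose_spec
    exact tup_init (p.seq i).2.hb h1 h2 (p.len i i le_rfl)
  | succ j hj ih =>
    obtain ⟨_, h1, h2⟩ := (p.seq j).2.ex.choose_spec
    exact tup_step (p.seq j).2.hb h1 h2 hj (p.len j i (by omega)) ih

/-- Eventual equality in the representations. -/
def Par.con : RingCon (FreeAlgebra F (Fin d)) where
  r a b := ∀ᶠ j in Filter.atTop,
    FreeAlgebra.lift F (p.seq j).1.ρ a = FreeAlgebra.lift F (p.seq j).1.ρ b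
  iseqv := ⟨fun _ => Filter.Eventually.of_forall fun _ => rfl,
    fun h => h.mono fun _ => Eq.symm, fun h h' => (h.and h').mono fun _ e => e.1.trans e.2⟩
  mul' h h' := (h.and h').mono fun _ e => by rw [map_mul, map_mul, e.1, e.2]
  add' h h' := (h.and h').mono fun _ e => by rw [map_add, map_add, e.1, e.2]

theorem Par.mk_eq {a b : FreeAlgebra F (Fin d)} :
    p.con.mkₐ F a = p.con.mkₐ F b ↔ ∀ᶠ j in Filter.atTop,
      FreeAlgebra.lift F (p.seq j).1.ρ a = FreeAlgebra.lift F (p.seq j).1.ρ b := p.con.eq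

theorem exists_par (τ : Type) [Fintype τ] :
    ∃ (d : ℕ) (p : Par τ d), Function.Surjective p.tup := by
  obtain ⟨tup, ht⟩ := exists_surjective_nat (τ → List (List (Fin (18 * Fintype.card τ + 5))))
  have h : ∀ j, ∃ L, 0 < L ∧ ∀ i ≤ j, ∀ l, ∀ w ∈ tup i l, w.length ≤ L := by
    intro j
    have hf : (⋃ i ∈ Set.Iic j, ⋃ l, List.length '' {w | w ∈ tup i l}).Finite :=
      (Set.finite_Iic j).biUnion fun i _ => Set.finite_iUnion fun l =>
        (List.finite_toSet _).image _
    obtain ⟨L, hL⟩ := hf.bddAbove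
    refine ⟨L + 1, by omega, fun i hi l w hw => Nat.le_succ_of_le (hL ?_)⟩
    simp only [Set.mem_iUnion]
    exact ⟨i, hi, l, w, hw, rfl⟩
  choose L h1 h2 using h
  exact ⟨_, ⟨tup, L, h1, h2, le_rfl⟩, ht⟩

/-- A finitely generated ring of characteristic two with arbitrarily large unital matrix units in
which tuples of a fixed length generate finite subrings. -/
theorem exists_ring (τ : Type) [Fintype τ] :
    ∃ (R : Type) (_ : Ring R) (d : ℕ) (x : Fin d → R), (1 : R) + 1 = 0 ∧ (∀ r, ∃ q, ep x q = r) ∧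
      (∀ a : τ → R, ∃ B : Subring R, (B : Set R).Finite ∧ ∀ l, a l ∈ B) ∧ (1 : R) ≠ 0 ∧
      ∀ n, ∃ (ι : Type) (_ : Fintype ι) (_ : DecidableEq ι) (f : ι → ι → R),
        n ≤ Fintype.card ι ∧ (∀ a b c, f a b * f b c = f a c) ∧
        (∀ a b c e, b ≠ c → f a b * f c e = 0) ∧ ∑ a, f a a = 1 := by
  obtain ⟨d, p, hp⟩ := exists_par τ
  let π := p.con.mkₐ F
  have hx : ∀ q, ep (fun v => π (FreeAlgebra.ι F v)) q = π (ep (FreeAlgebra.ι F) q) :=
    fun q => (map_ep π.toRingHom _ q).symm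
  have hs : ∀ r, ∃ q, ep (fun v => π (FreeAlgebra.ι F v)) q = r := fun r => by
    obtain ⟨f, rfl⟩ := p.con.mkₐ_surjective (α := F) r
    obtain ⟨q, rfl⟩ := ep_surj f
    exact ⟨q, hx q⟩
  refine ⟨p.con.Quotient, inferInstance, d, fun v => π (FreeAlgebra.ι F v), ?_, hs, ?_, ?_, ?_⟩
  · rw [← map_one (algebraMap F p.con.Quotient), ← map_add, CharTwo.add_self_eq_zero, map_zero]
  · intro a
    choose q hq using fun l => hs (a l)
    obtain ⟨i, rfl⟩ := hp q
    let ψ := FreeAlgebra.lift F (fun l => ep (FreeAlgebra.ι F) (p.tup i l))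
    have hψ : ∀ j f, FreeAlgebra.lift F (p.seq j).1.ρ (ψ f) =
        FreeAlgebra.lift F (fun l => ep (p.seq j).1.ρ (p.tup i l)) f := by
      intro j f
      have : (FreeAlgebra.lift F (p.seq j).1.ρ).comp ψ =
          FreeAlgebra.lift F (fun l => ep (p.seq j).1.ρ (p.tup i l)) := by
        apply FreeAlgebra.hom_ext
        funext l
        simp [ψ, lift_ep]
      exact AlgHom.congr_fun this f
    refine ⟨(π.comp ψ).range.toSubring, finite_range
      (FreeAlgebra.lift F (fun l => ep (p.seq i).1.ρ (p.tup i l))) (π.comp ψ) ?_, fun l => ?_⟩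
    · intro f f' hf hf'
      rw [AlgHom.comp_apply, AlgHom.comp_apply, ← map_mul, ← map_zero π, p.mk_eq]
      filter_upwards [Filter.eventually_ge_atTop (i + 1)] with j hj
      rw [map_mul, hψ, hψ, map_zero]
      exact tup_sq (p.tup_le hj) ((p.seq j).2.disj i) f f' hf hf'
    · exact ⟨FreeAlgebra.ι F l, by rw [← hq l, hx]; simp [ψ]⟩
  · rw [← map_one π, ← map_zero π, Ne, p.mk_eq]
    intro h
    obtain ⟨j, hj⟩ := h.exists
    rw [map_one, map_zero] at hj
    have h1 := (p.seq j).2.hn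
    have h2 : 0 < (p.seq j).1.r := by
      have := p.le_r j
      have := p.pos j
      rw [(p.seq j).2.hr]
      nlinarith
    obtain ⟨a⟩ := Fintype.card_pos_iff.1 h1
    have := congrFun (congrFun hj (a, ⟨0, h2⟩)) (a, ⟨0, h2⟩)
    simp at this
  · intro n
    choose g hg using (p.seq n).2.hdef
    have key : ∀ f f' : FreeAlgebra F (Fin d), (∀ (A : Type) [Ring A] [Algebra F A]
        (θ : FreeAlgebra F (Fin d) →ₐ[F] A) (φ : (p.seq n).1.Mat →ₐ[F] A),
        (∀ M, θ (g M) = φ M) → θ f = θ f') → π f = π f' := by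
      intro f f' h
      rw [p.mk_eq]
      filter_upwards [Filter.eventually_ge_atTop n] with j hj
      obtain ⟨φ, hφ⟩ := p.rep_le hj
      exact h _ _ φ fun M => (hφ _ _ (hg M)).self
    refine ⟨(p.seq n).1.ι, inferInstance, inferInstance, fun a b => π (g (single a b 1)), ?_,
      fun a b c => ?_, fun a b c e h => ?_, ?_⟩
    · have h1 := (p.seq n).2.hn
      have h2 := p.le_r n
      have h3 := p.pos n
      rw [Fintype.card_prod, Fintype.card_fin, (p.seq n).2.hr]
      nlinarith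
    · rw [← map_mul]
      refine key _ _ fun A _ _ θ φ h => ?_
      rw [map_mul, h, h, h, ← map_mul, single_mul_single_same, mul_one]
    · rw [← map_mul, ← map_zero π]
      refine key _ _ fun A _ _ θ φ h' => ?_
      rw [map_mul, h', h', ← map_mul, single_mul_single_of_ne _ _ _ _ h, map_zero, map_zero]
    · rw [← map_sum, ← map_one π]
      refine key _ _ fun A _ _ θ φ h => ?_
      simp only [map_sum, h]
      rw [← map_sum, sum_single_one, map_one, map_one]

end Pool.Agent.Lib.MP_a5bfc0_al
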