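import Mathlib
import Pool.Agent.Lib.MP_a5bfc0_al.Ring

set_option autoImplicit false

namespace Pool.Agent.Lib.MP_a5bfc0_al

open Matrix

/-- A group generated by elements satisfying some of the Steinberg relations of rank two over a
ring of characteristic two. -/
structure Stein (R : Type) [Ring R] (H : Type) [Group H] : Type where
  E : (i j : Fin 3) → i ≠ j → R → H
  add : ∀ i j h a b, E i j h (a + b) = E i j h a * E i j h b
  comm : ∀ i j k h h' h'' a b,
    E i j h a * E j k h' b * (E i j h a)⁻¹ * (E j k h' b)⁻¹ = E i k h'' (a * b)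
  gen : ∀ K : Subgroup H, (∀ i j h r, E i j h r ∈ K) → K = ⊤
  comm₀ : Commute (E 0 1 (by decide) 1) (E 0 2 (by decide) 1)
  cube : (E 0 1 (by decide) 1 * E 1 0 (by decide) 1) ^ 3 = 1

namespace Stein

variable {R : Type} [Ring R] {H : Type} [Group H] (s : Stein R H)

theorem zero (i j : Fin 3) (h : i ≠ j) : s.E i j h 0 = 1 := by
  have := s.add i j h 0 0
  rw [add_zero] at this
  exact left_eq_mul.1 this

theorem right (M : Subgroup H) [hM : M.Normal] {i j : Fin 3} (k : Fin 3) {h : i ≠ j} (h' : j ≠ k)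
    (h'' : i ≠ k) {c : R} (b : R) (hc : s.E i j h c ∈ M) : s.E i k h'' (c * b) ∈ M := by
  rw [← s.comm i j k h h' h'', mul_assoc, mul_assoc, ← mul_assoc (s.E j k h' b)]
  exact mul_mem hc (hM.conj_mem _ (inv_mem hc) _)

theorem left (M : Subgroup H) [hM : M.Normal] {j k : Fin 3} (i : Fin 3) {h' : j ≠ k} (h : i ≠ j)
    (h'' : i ≠ k) {c : R} (a : R) (hc : s.E j k h' c ∈ M) : s.E i k h'' (a * c) ∈ M := by
  rw [← s.comm i j k h h' h'']
  exact mul_mem (hM.conj_mem _ hc _) (inv_mem hc)

/-- The distinguished involution. -/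
def u : H := s.E 0 1 (by decide) 1

theorem ideal (M : Subgroup H) [M.Normal] {c : R} (a b : R) (hc : s.E 0 1 (by decide) c ∈ M) :
    s.E 0 1 (by decide) (a * c * b) ∈ M := by
  have h1 := s.left M 2 (by decide) (by decide) a hc
  have h2 := s.left M 0 (by decide) (by decide) 1 h1
  have h3 := s.right M 2 (by decide) (by decide) b h2
  have h4 := s.right M 1 (by decide) (by decide) 1 h3
  simpa using h4

theorem top (M : Subgroup H) [M.Normal] (hc : s.u ∈ M) : M = ⊤ := by
  refine s.gen M fun i j h r => ?_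
  have h01 : s.E 0 1 (by decide) r ∈ M := by simpa using s.ideal M r 1 hc
  have h02 := s.right M 2 (by decide) (by decide) 1 h01
  have h21 := s.left M 2 (by decide) (by decide) 1 h01
  have h12 := s.left M 1 (by decide) (by decide) 1 h02
  have h20 := s.right M 0 (by decide) (by decide) 1 h21
  have h10 := s.right M 0 (by decide) (by decide) 1 h12
  simp only [mul_one, one_mul] at h02 h21 h12 h20 h10
  fin_cases i <;> fin_cases j <;> first | assumption | exact absurd rfl h

/-- The image of the generators in a quotient. -/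
def quot (M : Subgroup H) [M.Normal] : Stein R (H ⧸ M) where
  E i j h r := QuotientGroup.mk' M (s.E i j h r)
  add i j h a b := by rw [s.add, map_mul]
  comm i j k h h' h'' a b := by
    rw [← s.comm i j k h h' h'']
    simp only [map_mul, map_inv]
  gen K hK := by
    have := s.gen (K.comap (QuotientGroup.mk' M)) hK
    rw [eq_top_iff]
    intro g _
    obtain ⟨g, rfl⟩ := QuotientGroup.mk'_surjective M g
    exact (this.ge (Subgroup.mem_top g) :)
  comm₀ := s.comm₀.map _
  cube := by rw [← map_mul, ← map_pow, s.cube, map_one]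

theorem exists_max (hu : s.u ≠ 1) :
    ∃ (M : Subgroup H) (_ : M.Normal), s.u ∉ M ∧ IsSimpleGroup (H ⧸ M) := by
  obtain ⟨M, -, hM⟩ := zorn_le_nonempty₀ {M : Subgroup H | M.Normal ∧ s.u ∉ M} (by
    intro c hc hch y hy
    have hd := hch.directedOn
    refine ⟨sSup c, ⟨⟨fun n hn g => ?_⟩, fun h => ?_⟩, fun z hz => le_sSup hz⟩
    · obtain ⟨K, hK, hn⟩ := (Subgroup.mem_sSup_of_directedOn ⟨y, hy⟩ hd).1 hn
      exact (Subgroup.mem_sSup_of_directedOn ⟨y, hy⟩ hd).2 ⟨K, hK, (hc hK).1.conj_mem _ hn _⟩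
    · obtain ⟨K, hK, hn⟩ := (Subgroup.mem_sSup_of_directedOn ⟨y, hy⟩ hd).1 h
      exact (hc hK).2 hn) ⊥ ⟨inferInstance, by simpa using hu⟩
  have := hM.prop.1
  refine ⟨M, this, hM.prop.2, ?_⟩
  have : Nontrivial (H ⧸ M) :=
    ⟨⟨QuotientGroup.mk s.u, 1, fun h => hM.prop.2 ((QuotientGroup.eq_one_iff _).1 h)⟩⟩
  refine ⟨fun K hK => ?_⟩
  by_cases h : (s.quot M).u ∈ K
  · exact Or.inr ((s.quot M).top K h)
  · left
    have h1 : M ≤ K.comap (QuotientGroup.mk' M) := fun g hg => by
      rw [Subgroup.mem_comap, QuotientGroup.mk'_apply, (QuotientGroup.eq_one_iff _).2 hg]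
      exact one_mem _
    have h2 := hM.le_of_ge (y := K.comap (QuotientGroup.mk' M)) ⟨inferInstance, h⟩ h1
    rw [eq_bot_iff]
    intro g hg
    obtain ⟨g, rfl⟩ := QuotientGroup.mk'_surjective M g
    exact (QuotientGroup.eq_one_iff _).2 (h2 hg)

theorem order_two (h2 : (1 : R) + 1 = 0) (hu : s.u ≠ 1) : orderOf s.u = 2 :=
  orderOf_eq_prime (by rw [pow_two, u, ← s.add, h2, s.zero]) hu

theorem order_three (hu : s.u ≠ 1) : ∃ g : H, orderOf g = 3 := by
  refine ⟨_, orderOf_eq_prime s.cube fun h => hu ?_⟩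
  have h1 := s.comm 1 0 2 (by decide) (by decide) (by decide) 1 1
  rw [eq_inv_of_mul_eq_one_right h, s.comm₀.inv_left.eq, mul_inv_cancel_right, mul_inv_cancel] at h1
  have h2 : s.E 1 2 (by decide) (1 * 1) ∈ (⊥ : Subgroup H) := h1.symm
  have h3 := s.left ⊥ 0 (by decide) (by decide) 1 h2
  have h4 := s.right ⊥ 1 (by decide) (by decide) 1 h3
  simpa [u] using h4

theorem infinite (h2 : (1 : R) + 1 = 0) (hu : s.u ≠ 1)
    (hf : ∀ n, ∃ (ι : Type) (_ : Fintype ι) (_ : DecidableEq ι) (f : ι → ι → R),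
      n ≤ Fintype.card ι ∧ (∀ a b c, f a b * f b c = f a c) ∧
      (∀ a b c e, b ≠ c → f a b * f c e = 0) ∧ ∑ a, f a a = 1) : Infinite H := by
  by_contra hH
  rw [not_infinite_iff_finite] at hH
  have := Fintype.ofFinite H
  obtain ⟨ι, _, _, f, hn, f1, f2, f3⟩ := hf (Fintype.card H + 1)
  have hinj : Function.Injective fun a => s.E 0 1 (by decide) (f a a) := by
    intro a b hab
    by_contra hne
    have e1 : s.E 0 1 (by decide) (f a a + f b b) ∈ (⊥ : Subgroup H) := by
      have e2 : f b b + f b b = 0 := by rw [← one_mul (f b b), ← add_mul, h2, zero_mul]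
      simp only at hab
      rw [s.add, hab, ← s.add, e2, s.zero]
      exact one_mem _
    have e3 : ∀ c, s.E 0 1 (by decide) (f c c) = 1 := fun c => by
      have := s.ideal ⊥ (f c a) (f a c) e1
      rwa [mul_add, f1, f2 _ _ _ _ hne, add_zero, f1] at this
    have e4 : ∀ A : Finset ι, s.E 0 1 (by decide) (∑ c ∈ A, f c c) = 1 := by
      intro A
      induction A using Finset.induction_on with
      | empty => exact s.zero _ _ _
      | insert c A hc ih => rw [Finset.sum_insert hc, s.add, ih, e3, one_mul]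
    have := e4 Finset.univ
    rw [f3] at this
    exact hu this
  have := Fintype.card_le_of_injective _ hinj
  omega

end Stein

section Elem

variable {R : Type} [Ring R]

/-- An elementary matrix. -/
def el (i j : Fin 3) (h : i ≠ j) (r : R) : (Matrix (Fin 3) (Fin 3) R)ˣ where
  val := 1 + single i j r
  inv := 1 - single i j r
  val_inv := by
    rw [mul_sub, add_mul, add_mul, single_mul_single_of_ne _ _ _ _ h.symm]
    simp
  inv_val := by
    rw [mul_add, sub_mul, sub_mul, single_mul_single_of_ne _ _ _ _ h.symm]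
    simp

theorem el_val (i j : Fin 3) (h : i ≠ j) (r : R) : (el i j h r).val = 1 + single i j r := rfl

theorem el_inv (i j : Fin 3) (h : i ≠ j) (r : R) : (el i j h r)⁻¹.val = 1 - single i j r := rfl

theorem el_add (i j : Fin 3) (h : i ≠ j) (a b : R) :
    el i j h (a + b) = el i j h a * el i j h b := by
  apply Units.ext
  simp only [Units.val_mul, el_val, mul_add, add_mul, single_mul_single_of_ne _ _ _ _ h.symm,
    single_add, one_mul, mul_one, add_zero]
  abel

theorem el_comm (i j k : Fin 3) (h : i ≠ j) (h' : j ≠ k) (h'' : i ≠ k) (a b : R) :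
    el i j h a * el j k h' b * (el i j h a)⁻¹ * (el j k h' b)⁻¹ = el i k h'' (a * b) := by
  apply Units.ext
  simp only [Units.val_mul, el_val, el_inv, mul_add, add_mul, mul_sub, sub_mul,
    single_mul_single_of_ne _ _ _ _ h.symm, single_mul_single_of_ne _ _ _ _ h'.symm,
    single_mul_single_of_ne _ _ _ _ h''.symm, single_mul_single_same, one_mul, mul_one, add_zero]
  abel

variable {d : ℕ} (x : Fin d → R)

/-- The generators of the elementary group. -/
def gens (t : {q : Fin 3 × Fin 3 // q.1 ≠ q.2} × Option (Fin d)) : (Matrix (Fin 3) (Fin 3) R)ˣ :=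
  el t.1.1.1 t.1.1.2 t.1.2 (t.2.elim 1 x)

/-- The elementary group. -/
def EG : Subgroup (Matrix (Fin 3) (Fin 3) R)ˣ := Subgroup.closure (Set.range (gens x))

theorem el_mem (q : List (List (Fin d))) (i j : Fin 3) (h : i ≠ j) : el i j h (ep x q) ∈ EG x := by
  have hw : ∀ (w : List (Fin d)) (i j : Fin 3) (h : i ≠ j), el i j h (ew x w) ∈ EG x := by
    intro w
    induction w with
    | nil => exact fun i j h => Subgroup.subset_closure ⟨(⟨(i, j), h⟩, none), rfl⟩
    | cons v w ih =>
      intro i j h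
      obtain ⟨k, h1, h2⟩ : ∃ k, i ≠ k ∧ k ≠ j := by
        revert i j
        decide
      have h3 : el i k h1 (x v) ∈ EG x := Subgroup.subset_closure ⟨(⟨(i, k), h1⟩, some v), rfl⟩
      rw [ew_cons, ← el_comm i k j h1 h2 h]
      exact mul_mem (mul_mem (mul_mem h3 (ih _ _ _)) (inv_mem h3)) (inv_mem (ih _ _ _))
  induction q with
  | nil =>
    have : el i j h (0 : R) = 1 := Units.ext (by simp [el_val])
    rw [ep_nil, this]
    exact one_mem _
  | cons w q ih =>
    rw [ep_cons, el_add]
    exact mul_mem (hw _ _ _ _) ih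

/-- The Steinberg generators of the elementary group. -/
def stein (h2 : (1 : R) + 1 = 0) (hx : ∀ r, ∃ q, ep x q = r) : Stein R (EG x) where
  E i j h r := ⟨el i j h r, by obtain ⟨q, rfl⟩ := hx r; exact el_mem x q i j h⟩
  add i j h a b := Subtype.ext (el_add i j h a b)
  comm i j k h h' h'' a b := Subtype.ext (el_comm i j k h h' h'' a b)
  gen K hK := by
    rw [eq_top_iff]
    refine (Subgroup.closure_closure_coe_preimage (k := Set.range (gens x))).ge.trans
      ((Subgroup.closure_le _).2 ?_)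
    rintro ⟨_, _⟩ ⟨t, rfl⟩
    exact hK _ _ _ _
  comm₀ := by
    apply Subtype.ext
    apply Units.ext
    simp only [Subgroup.coe_mul, Units.val_mul, el_val, mul_add, add_mul, one_mul, mul_one]
    rw [single_mul_single_of_ne _ _ _ _ (by decide), single_mul_single_of_ne _ _ _ _ (by decide)]
    abel
  cube := by
    apply Subtype.ext
    apply Units.ext
    simp only [Subgroup.coe_mul, Units.val_mul, el_val, pow_three, Subgroup.coe_one, Units.val_one]
    have e : (1 + single 0 1 1 : Matrix (Fin 3) (Fin 3) R) * (1 + single 1 0 1) =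
        !![0, 1, 0; 1, 1, 0; 0, 0, 1] := by
      ext i j
      fin_cases i <;> fin_cases j <;> simp [Matrix.mul_apply, Fin.sum_univ_three, single, h2]
    rw [e]
    ext i j
    fin_cases i <;> fin_cases j <;> simp [Matrix.mul_apply, Fin.sum_univ_three, h2]

theorem fg_EG : Group.FG (EG x) :=
  (Group.fg_iff_subgroup_fg _).2 ((Subgroup.fg_iff _).2 ⟨_, rfl, Set.finite_range _⟩)

theorem two_gen (hB : ∀ a : Fin 4 × Fin 3 × Fin 3 → R,
    ∃ B : Subring R, (B : Set R).Finite ∧ ∀ l, a l ∈ B) (g h : EG x) :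
    (Subgroup.closure {g, h} : Set (EG x)).Finite := by
  obtain ⟨B, hB1, hB2⟩ := hB fun l => (![g, h, g⁻¹, h⁻¹] l.1).1.val l.2.1 l.2.2
  let K : Subgroup (EG x) :=
    { carrier := {u | (∀ i j, u.1.val i j ∈ B) ∧ ∀ i j, u⁻¹.1.val i j ∈ B}
      one_mem' := by
        constructor <;> intro i j <;> simp only [inv_one, Subgroup.coe_one, Units.val_one,
          Matrix.one_apply] <;> split_ifs <;> first | exact one_mem _ | exact zero_mem _
      mul_mem' := by
        rintro a b ⟨a1, a2⟩ ⟨b1, b2⟩
        constructor <;> intro i j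
        · rw [Subgroup.coe_mul, Units.val_mul, Matrix.mul_apply]
          exact sum_mem fun c _ => mul_mem (a1 _ _) (b1 _ _)
        · rw [_root_.mul_inv_rev, Subgroup.coe_mul, Units.val_mul, Matrix.mul_apply]
          exact sum_mem fun c _ => mul_mem (b2 _ _) (a2 _ _)
      inv_mem' := by
        rintro a ⟨a1, a2⟩
        exact ⟨a2, by rwa [inv_inv]⟩ }
  have h1 : Subgroup.closure {g, h} ≤ K := by
    rw [Subgroup.closure_le]
    rintro u (rfl | rfl)
    · exact ⟨fun i j => hB2 (0, i, j), fun i j => hB2 (2, i, j)⟩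
    · exact ⟨fun i j => hB2 (1, i, j), fun i j => hB2 (3, i, j)⟩
  refine Set.Finite.subset ?_ h1
  refine Set.Finite.of_finite_image (f := fun u : EG x => (u.1.val : Fin 3 → Fin 3 → R)) ?_
    (fun a _ b _ hab => Subtype.ext (Units.ext hab))
  refine (Set.Finite.pi' fun _ => Set.Finite.pi' fun _ => hB1).subset ?_
  rintro _ ⟨u, hu, rfl⟩
  exact hu.1

end Elem

theorem two_gen_map {G H : Type} [Group G] [Group H] (f : G →* H) (hf : Function.Surjective f)
    (h : ∀ a b : G, (Subgroup.closure {a, b} : Set G).Finite) (a b : H) :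
    (Subgroup.closure {a, b} : Set H).Finite := by
  obtain ⟨a, rfl⟩ := hf a
  obtain ⟨b, rfl⟩ := hf b
  rw [← Set.image_pair, ← MonoidHom.map_closure, Subgroup.coe_map]
  exact (h a b).image _

theorem two_gen_sub {G : Type} [Group G] (K : Subgroup G)
    (h : ∀ a b : G, (Subgroup.closure {a, b} : Set G).Finite) (a b : K) :
    (Subgroup.closure {a, b} : Set K).Finite := by
  refine Set.Finite.of_finite_image (f := K.subtype) ?_ K.subtype_injective.injOn
  rw [← Subgroup.coe_map, MonoidHom.map_closure, Set.image_pair]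
  exact h _ _

/-- An infinite finitely generated simple group all of whose two-generator subgroups are finite,
with elements of order two and three. -/
theorem exists_group : ∃ (G : Type) (_ : Group G), Infinite G ∧ Group.FG G ∧ IsSimpleGroup G ∧
    (∀ a b : G, (Subgroup.closure {a, b} : Set G).Finite) ∧ (∃ g : G, orderOf g = 2) ∧
    ∃ g : G, orderOf g = 3 := by
  obtain ⟨R, _, d, x, h2, hx, hB, h1, hf⟩ := exists_ring (Fin 4 × Fin 3 × Fin 3)
  let s := stein x h2 hx
  have hu : s.u ≠ 1 := fun h => h1 (by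
    have := congrArg (fun g : EG x => g.1.val 0 1) h
    simpa [s, stein, Stein.u, el_val] using this)
  obtain ⟨M, _, hM, hS⟩ := s.exists_max hu
  have hu' : (s.quot M).u ≠ 1 := fun h => hM ((QuotientGroup.eq_one_iff _).1 h)
  have := fg_EG x
  exact ⟨EG x ⧸ M, inferInstance, (s.quot M).infinite h2 hu' hf,
    Group.fg_of_surjective (QuotientGroup.mk'_surjective M), hS,
    two_gen_map _ (QuotientGroup.mk'_surjective M) (two_gen x hB),
    ⟨_, (s.quot M).order_two h2 hu'⟩, (s.quot M).order_three hu'⟩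

end Pool.Agent.Lib.MP_a5bfc0_al
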