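import Pool.Agent.Lib.MP_a5bfc0_al.Group

/-! All finite groups embed, and many generators still give finite subgroups. -/

namespace Pool.Agent.Lib.MP_a5bfc0_al

open Matrix

variable {R : Type} [Ring R] {d : ℕ} (x : Fin d → R)

theorem many_gen {τ : Type} (hB : ∀ a : τ × Bool × Fin 3 × Fin 3 → R,
    ∃ B : Subring R, (B : Set R).Finite ∧ ∀ l, a l ∈ B) (g : τ → EG x) :
    (Subgroup.closure (Set.range g) : Set (EG x)).Finite := by
  obtain ⟨B, hB1, hB2⟩ := hB fun l => (cond l.2.1 (g l.1) (g l.1)⁻¹).1.val l.2.2.1 l.2.2.2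
  have h1 : ∀ u ∈ Subgroup.closure (Set.range g),
      (∀ i j, u.1.val i j ∈ B) ∧ ∀ i j, u⁻¹.1.val i j ∈ B := by
    intro u hu
    induction hu using Subgroup.closure_induction with
    | mem u hu =>
      obtain ⟨t, rfl⟩ := hu
      exact ⟨fun i j => hB2 (t, true, i, j), fun i j => hB2 (t, false, i, j)⟩
    | one =>
      constructor <;> intro i j <;> simp only [inv_one, Subgroup.coe_one, Units.val_one,
        Matrix.one_apply] <;> split_ifs <;> first | exact one_mem _ | exact zero_mem _
    | mul a b _ _ ha hb =>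
      constructor <;> intro i j
      · rw [Subgroup.coe_mul, Units.val_mul, Matrix.mul_apply]
        exact sum_mem fun c _ => mul_mem (ha.1 _ _) (hb.1 _ _)
      · rw [_root_.mul_inv_rev, Subgroup.coe_mul, Units.val_mul, Matrix.mul_apply]
        exact sum_mem fun c _ => mul_mem (hb.2 _ _) (ha.2 _ _)
    | inv a _ ha => exact ⟨ha.2, by rw [inv_inv]; exact ha.1⟩
  refine Set.Finite.of_finite_image (f := fun u : EG x => (u.1.val : Fin 3 → Fin 3 → R)) ?_
    (fun a _ b _ hab => Subtype.ext (Units.ext hab))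
  refine (Set.Finite.pi' fun _ => Set.Finite.pi' fun _ => hB1).subset ?_
  rintro _ ⟨u, hu, rfl⟩
  exact (h1 u hu).1

/-- A diagonal matrix. -/
def dg : R →* Matrix (Fin 3) (Fin 3) R where
  toFun r := diagonal ![r, 1, 1]
  map_one' := by
    rw [← diagonal_one]
    congr 1
    ext i
    fin_cases i <;> rfl
  map_mul' a b := by
    rw [diagonal_mul_diagonal]
    congr 1
    ext i
    fin_cases i <;> simp

theorem dg_comm {a b : R} (h : b * a = 0) : (el 0 1 (by decide) a * el 1 0 (by decide) b *
    (el 0 1 (by decide) a)⁻¹ * (el 1 0 (by decide) b)⁻¹).val = dg (1 + a * b) := by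
  have h' : ∀ c, c * b * a = 0 := fun c => by rw [mul_assoc, h, mul_zero]
  simp only [Units.val_mul, el_val, el_inv]
  ext i j
  fin_cases i <;> fin_cases j <;>
    simp [dg, Matrix.mul_apply, Fin.sum_univ_three, single, one_apply, h, h', add_mul]

theorem dg_el (p r : R) :
    dg p * (el 0 1 (by decide) r).val = (el 0 1 (by decide) (p * r)).val * dg p := by
  simp only [el_val]
  ext i j
  fin_cases i <;> fin_cases j <;>
    simp [dg, Matrix.mul_apply, Fin.sum_univ_three, single, one_apply]

theorem exists_emb (h2 : (1 : R) + 1 = 0) (hx : ∀ r, ∃ q, ep x q = r) {ι : Type} [Fintype ι]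
    [DecidableEq ι] {f : ι → ι → R} (f1 : ∀ a b c, f a b * f b c = f a c)
    (f2 : ∀ a b c e, b ≠ c → f a b * f c e = 0) (f3 : ∑ a, f a a = 1) (M : Subgroup (EG x))
    [hM : M.Normal] (hu : (stein x h2 hx).u ∉ M) :
    ∃ φ : Equiv.Perm ι →* EG x, ∀ σ, φ σ ∈ M → σ = 1 := by
  have hP : ∀ (σ : Equiv.Perm ι) a b, (∑ c, f (σ c) c) * f a b = f (σ a) b := fun σ a b => by
    rw [Finset.sum_mul, Finset.sum_eq_single a (fun c _ h => f2 _ _ _ _ h) (by simp), f1]
  let P : Equiv.Perm ι →* R :=
    { toFun := fun σ => ∑ c, f (σ c) c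
      map_one' := f3
      map_mul' := fun σ τ => by simp only [Finset.mul_sum, hP, Equiv.Perm.mul_apply] }
  let D := (dg.comp P).toHomUnits
  let s := stein x h2 hx
  have h3 : ∀ a b, a ≠ b → ∃ U ∈ EG x, U.val = dg (1 + f a b) := fun a b h =>
    ⟨_, mul_mem (mul_mem (mul_mem (s.E 0 1 (by decide) _).2 (s.E 1 0 (by decide) _).2) (inv_mem (s.E 0 1 (by decide) _).2))
      (inv_mem (s.E 1 0 (by decide) _).2), (dg_comm (f2 b b a b h.symm)).trans (by rw [f1])⟩
  have h4 : ∀ r : R, r + r = 0 := fun r => by rw [← one_mul r, ← add_mul, h2, zero_mul]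
  have h5 : ∀ σ, D σ ∈ EG x := fun σ => by
    induction σ using Equiv.Perm.swap_induction_on with
    | one => rw [map_one]; exact one_mem _
    | swap_mul σ a b h ih =>
      rw [map_mul]
      refine mul_mem ?_ ih
      obtain ⟨U, hU, e1⟩ := h3 a b h
      obtain ⟨V, hV, e2⟩ := h3 b a h.symm
      have e3 : P (Equiv.swap a b) = (1 + f a b) * (1 + f b a) * (1 + f a b) := by
        refine Eq.trans ?_ ((congrArg _ f3).trans (mul_one _))
        rw [Finset.mul_sum]
        refine Finset.sum_congr rfl fun c _ => ?_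
        rcases eq_or_ne c a with rfl | ha
        · simp only [Equiv.swap_apply_left, add_mul, mul_assoc, one_mul, f1, f2 _ b c _ h.symm,
            add_zero, mul_add]
          rw [add_left_comm, h4, add_zero]
        rcases eq_or_ne c b with rfl | hb
        · simp only [Equiv.swap_apply_right, add_mul, mul_assoc, one_mul, f1, f2 _ a c _ h,
            f2 _ c a _ h.symm, add_zero, mul_add]
          rw [add_left_comm (f a c), h4, add_zero, add_right_comm, h4, zero_add]
        · simp only [Equiv.swap_apply_of_ne_of_ne ha hb, add_mul, mul_assoc, one_mul,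
            f2 _ _ c _ ha.symm, f2 _ _ c _ hb.symm, add_zero]
      have e4 : D (Equiv.swap a b) = U * V * U := Units.ext (by
        rw [Units.val_mul, Units.val_mul, e1, e2, ← map_mul, ← map_mul, ← e3]
        rfl)
      exact e4 ▸ mul_mem (mul_mem hU hV) hU
  refine ⟨D.codRestrict _ h5, fun σ hσ => Equiv.ext fun a => by_contra fun ha => hu ?_⟩
  have h6 := mul_mem hσ (hM.conj_mem _ (inv_mem hσ) (s.E 0 1 (by decide) (f a a)))
  have h7 : D.codRestrict _ h5 σ * s.E 0 1 (by decide) (f a a) =
      s.E 0 1 (by decide) (f (σ a) a) * D.codRestrict _ h5 σ :=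
    Subtype.ext (Units.ext ((dg_el _ _).trans (by rw [← hP]; rfl)))
  rw [← mul_assoc, ← mul_assoc, h7, mul_inv_cancel_right, ← eq_inv_of_mul_eq_one_left
    (show s.E 0 1 (by decide) (f a a) * s.E 0 1 (by decide) (f a a) = 1 by
      rw [← s.add, h4, s.zero]), ← s.add] at h6
  have h8 : ∀ A : Finset ι, s.E 0 1 (by decide) (∑ c ∈ A, f c c) ∈ M := fun A => by
    induction A using Finset.induction_on with
    | empty => exact (s.zero _ _ _).symm ▸ one_mem _
    | insert c A hc ih =>
      have h9 := s.ideal M (f c (σ a)) (f a c) h6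
      rw [mul_add, f1, f2 c (σ a) a a ha, add_zero, f1] at h9
      rw [Finset.sum_insert hc, s.add]
      exact mul_mem h9 ih
  have := h8 Finset.univ
  rwa [f3] at this

theorem exists_univ (K : ℕ) : ∃ (G : Type) (_ : Group G), Infinite G ∧ Group.FG G ∧
    IsSimpleGroup G ∧ (∀ g : Fin K → G, (Subgroup.closure (Set.range g) : Set G).Finite) ∧
    ∀ (Q : Type) [Group Q] [Finite Q], ∃ ψ : Q →* G, Function.Injective ψ := by
  obtain ⟨R, _, d, x, h2, hx, hB, h1, hf⟩ := exists_ring (Fin K × Bool × Fin 3 × Fin 3)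
  let s := stein x h2 hx
  have hu : s.u ≠ 1 := fun h => h1 (by
    have := congrArg (fun g : EG x => g.1.val 0 1) h
    simpa [s, stein, Stein.u, el_val] using this)
  obtain ⟨M, _, hM, hS⟩ := s.exists_max hu
  have hu' : (s.quot M).u ≠ 1 := fun h => hM ((QuotientGroup.eq_one_iff _).1 h)
  have := fg_EG x
  refine ⟨EG x ⧸ M, inferInstance, (s.quot M).infinite h2 hu' hf,
    Group.fg_of_surjective (QuotientGroup.mk'_surjective M), hS, fun g => ?_, fun Q _ _ => ?_⟩
  · choose g' hg using fun i => QuotientGroup.mk'_surjective M (g i)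
    rw [← funext hg, show (fun i => QuotientGroup.mk' M (g' i)) = QuotientGroup.mk' M ∘ g' from rfl,
      Set.range_comp, ← MonoidHom.map_closure, Subgroup.coe_map]
    exact (many_gen x hB g').image _
  · have := Fintype.ofFinite Q
    obtain ⟨ι, _, _, f, hn, f1, f2, f3⟩ := hf (Fintype.card Q)
    obtain ⟨e⟩ := Function.Embedding.nonempty_of_card_le hn
    obtain ⟨φ, hφ⟩ := exists_emb x h2 hx f1 f2 f3 M hM
    refine ⟨((QuotientGroup.mk' M).comp φ).comp
      ((Equiv.Perm.viaEmbeddingHom e).comp (MulAction.toPermHom Q Q)), ?_⟩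
    exact ((injective_iff_map_eq_one ((QuotientGroup.mk' M).comp φ)).2 fun σ h =>
      hφ σ ((QuotientGroup.eq_one_iff _).1 h)).comp ((Equiv.Perm.viaEmbeddingHom_injective e).comp
        MulAction.toPerm_injective)

end Pool.Agent.Lib.MP_a5bfc0_al
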